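import Pool.Agent.Q73.LS.Defs

/-!
# Murre's conjectures (B) and (D): definitions
-/

set_option autoImplicit false

universe u v w

namespace Pool.Agent.T2H38.MD

open Pool.Agent.H914 Pool.Agent.W492.BB Pool.Agent.W550.Corr Pool.Agent.TH133 Pool.Agent.Y107

variable {k : Type u} [Field k] {𝒱 : VarClass k}

/-- Murre's conjecture (B) in codimension `j` for the Chow-Kunneth decomposition `π`:
`F^0 CH^j(X) = CH^j(X)` and `F^(j + 1) CH^j(X) = 0`. -/
def BAt (C : TheoryData.{u, v, 0} 𝒱 ℚ) {X : 𝒱.Obj} (π : ℕ → C.A (X.prod X)) (j : ℕ) : Prop :=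
  ckFil C π j 0 = C.gr X j ∧ ckFil C π j (j + 1) = ⊥

/-- Murre's conjecture (D) in codimension `j` for the Chow-Kunneth decomposition `π`:
`F^1 CH^j(X)` is the group of homologically trivial cycles. -/
def DAt {C : TheoryData.{u, v, 0} 𝒱 ℚ} {K : Type w} [Field K]
    (H : WeilTheoryData.{u, v, w} C K) {X : 𝒱.Obj} (π : ℕ → C.A (X.prod X)) (j : ℕ) : Prop :=
  ∀ x : C.A X, x ∈ ckFil C π j 1 ↔ C.Deg j x ∧ H.cl x = 0

/-- Homologically trivial self-correspondences of degree zero of `X` are nilpotent: this holds, by a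
theorem of Kimura, if the Chow motive of `X` is finite-dimensional. -/
def NilHom {C : TheoryData.{u, v, 0} 𝒱 ℚ} {K : Type w} [Field K]
    (H : WeilTheoryData.{u, v, w} C K) (X : 𝒱.Obj) : Prop :=
  ∀ γ : C.A (X.prod X), C.Deg X.dim γ → H.cl γ = 0 → ∃ n : ℕ, corPow C γ n = 0

/-- The homologically trivial cycles of codimension `j` on `X` are motivated by divisors: there are
finitely many varieties `Y s` and correspondences `a s` from `X` to `Y s` and `b s` from `Y s` to `X`,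
`a s` mapping `CH^j(X)` to `CH^1(Y s)` and `b s` mapping `CH^1(Y s)` to `CH^j(X)`, with
`x = ∑ s, b s (a s x)` for all homologically trivial `x ∈ CH^j(X)`. -/
def FromDivisors {C : TheoryData.{u, v, 0} 𝒱 ℚ} {K : Type w} [Field K]
    (H : WeilTheoryData.{u, v, w} C K) (X : 𝒱.Obj) (j : ℕ) : Prop :=
  ∃ (m : ℕ) (Y : Fin m → 𝒱.Obj) (a : ∀ s, C.A (X.prod (Y s))) (b : ∀ s, C.A ((Y s).prod X)),
    (∀ s, C.Deg ((X.dim : ℤ) + 1 - j) (a s) ∧ C.Deg (((Y s).dim : ℤ) + j - 1) (b s)) ∧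
    ∀ x : C.A X, C.Deg j x → H.cl x = 0 → x = ∑ s, C.act (b s) (C.act (a s) x)

/-- The standard conjecture of Lefschetz type for the correspondence `L` of degree one (for instance
the intersection with a hyperplane section): for `n ≤ d = dim X` the map
`L^(d-n) : H^n(X) → H^(2d-n)(X)` has an inverse which is induced by a correspondence
`g ∈ CH^n(X × X)`. -/
def LefschetzStandard {C : TheoryData.{u, v, 0} 𝒱 ℚ} {K : Type w} [Field K]
    (H : WeilTheoryData.{u, v, w} C K) (X : 𝒱.Obj) (L : C.A (X.prod X)) : Prop :=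
  C.Deg ((X.dim : ℤ) + 1) L ∧ ∀ n ≤ X.dim, ∃ g : C.A (X.prod X), C.Deg n g ∧
    (∀ a : H.A X, H.Deg n a →
      H.act (H.cl g) (H.act (H.cl (corPow C L (X.dim - n))) a) = a) ∧
    ∀ a : H.A X, H.Deg (2 * X.dim - n) a →
      H.act (H.cl (corPow C L (X.dim - n))) (H.act (H.cl g) a) = a

/-- The Chow-Kunneth decomposition `π` of `X` satisfies motivic hard Lefschetz for some
correspondence of degree one. -/
def HasLefschetz (C : TheoryData.{u, v, 0} 𝒱 ℚ) {X : 𝒱.Obj} (π : ℕ → C.A (X.prod X)) : Prop :=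
  ∃ L : C.A (X.prod X), C.Deg ((X.dim : ℤ) + 1) L ∧ MotivicLefschetz C L π

/-- The diagonal of `X` is a sum of compositions `b s ∘ a s` of correspondences `a s` from `X` to
varieties `Y s` and `b s` from `Y s` to `X`, where `a s` lowers and `b s` raises the codimension of
cycles by `e s`, and each `s` satisfies `j ≤ e s + 1` or `dim (Y s) + e s < j`. -/
def DiagonalDec (C : TheoryData.{u, v, 0} 𝒱 ℚ) (X : 𝒱.Obj) (j : ℕ) : Prop :=
  ∃ (m : ℕ) (Y : Fin m → 𝒱.Obj) (e : Fin m → ℕ) (a : ∀ s, C.A (X.prod (Y s)))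
    (b : ∀ s, C.A ((Y s).prod X)),
    (∀ s, C.Deg ((X.dim : ℤ) - e s) (a s) ∧ C.Deg (((Y s).dim : ℤ) + e s) (b s) ∧
      (j ≤ e s + 1 ∨ (Y s).dim + e s < j)) ∧
    dg C X = ∑ s, C.comp (a s) (b s)

end Pool.Agent.T2H38.MD
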