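import Pool.Agent.Q73.LS.Murre
import Pool.Agent.T2H38.MD.Defs

/-!
# Murre's conjectures (B) and (D) and motivic hard Lefschetz

`π` is a Chow-Kunneth decomposition of `X` with motivic hard Lefschetz for a correspondence `L` of
degree one.
-/

set_option autoImplicit false

open CategoryTheory AlgebraicGeometry

universe u v w

namespace Pool.Agent.T2H38.MD

open Pool.Agent.H914 Pool.Agent.H914.VarClass Pool.Agent.H914.VarClass.Obj Pool.Agent.W492.BB
  Pool.Agent.W550.Corr Pool.Agent.TH133 Pool.Agent.Y107 Pool.Agent.Q73.LS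

set_option linter.unusedSectionVars false

variable {k : Type u} [Field k] {𝒱 : VarClass k}

section weil

variable {C : TheoryData.{u, v, 0} 𝒱 ℚ} [hC : IsChowProj C] {K : Type w} [Field K]
  {H : WeilTheoryData.{u, v, w} C K} [hH : IsWeilProj H] {X Y Z : 𝒱.Obj}

include hC hH

/-- (D) in terms of the projectors -/
lemma dAt_iff {π : ℕ → C.A (X.prod X)} (hπ : IsCK H X π) (j : ℕ) :
    DAt H π j ↔ ∀ x : C.A X, C.Deg j x → H.cl x = 0 → ∀ i, 2 * j ≤ i → C.act (π i) x = 0 := by
  constructor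
  · intro h x hx h0 i hi
    have h1 := (h x).2 ⟨hx, h0⟩
    rw [hπ.mem_ckFil] at h1
    exact h1.2 i (by omega)
  · intro h x
    rw [hπ.mem_ckFil]
    refine ⟨fun hx => ⟨hx.1, ?_⟩, fun hx => ⟨hx.1, fun i hi => h x hx.1 hx.2 i (by omega)⟩⟩
    have h1 : C.act (π (2 * j)) x = 0 := hx.2 (2 * j) (by omega)
    have h2 := congrArg H.cl h1
    rw [cl_act H, map_zero] at h2
    rw [← h2]
    exact (hπ.act_self (2 * j) _ (by
      have := H.cl_mem hx.1
      have e : ((2 * j : ℕ) : ℤ) = 2 * (j : ℤ) := by push_cast; ring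
      rw [TheoryData.Deg, e]; exact this)).symm

/-- (B) in terms of the projectors -/
lemma bAt_iff {π : ℕ → C.A (X.prod X)} (hπ : IsCK H X π) (j : ℕ) :
    BAt C π j ↔ ∀ x : C.A X, C.Deg j x → ∀ i, 2 * j < i ∨ i < j → C.act (π i) x = 0 := by
  constructor
  · rintro ⟨h0, h1⟩ x hx i hi
    rcases hi with hi | hi
    · have h2 : x ∈ ckFil C π j 0 := by rw [h0]; exact hx
      rw [hπ.mem_ckFil] at h2
      exact h2.2 i (by omega)
    · have h2 : C.act (π i) x ∈ ckFil C π j (j + 1) := by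
        rw [hπ.mem_ckFil]
        refine ⟨act_mem0 C (hπ.deg i) hx, fun m hm => ?_⟩
        rw [← C.act_comp, hπ.orth i m (by omega)]
        exact C.act_zero x
      rw [h1, Submodule.mem_bot] at h2
      exact h2
  · intro h
    constructor
    · ext x
      rw [hπ.mem_ckFil]
      exact ⟨fun h' => h'.1, fun hx => ⟨hx, fun i hi => h x hx i (Or.inl (by omega))⟩⟩
    · rw [eq_bot_iff]
      intro x hx
      rw [hπ.mem_ckFil] at hx
      rw [Submodule.mem_bot]
      have h1 : x = ∑ i ∈ Finset.range (2 * X.dim + 1), C.act (π i) x := by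
        rw [← act_sum, hπ.sum, act_dg]
      rw [h1]
      refine Finset.sum_eq_zero fun i _ => ?_
      by_cases hij : i < j
      · exact h x hx.1 i (Or.inr hij)
      · exact hx.2 i (by omega)

/-- Motivic hard Lefschetz: `π (2 d - n)` factors through `π n`. -/
lemma act_high' {L : C.A (X.prod X)} {π : ℕ → C.A (X.prod X)} (hπ : IsCK H X π)
    (hM : MotivicLefschetz C L π) {n : ℕ} (hn : n ≤ X.dim) {j : ℤ} {x : C.A X}
    (hx : x ∈ C.gr X j)
    (hyp : ∀ y : C.A X, y ∈ C.gr X (j + n - X.dim) → (H.cl x = 0 → H.cl y = 0) →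
      C.act (π n) y = 0) :
    C.act (π (2 * X.dim - n)) x = 0 := by
  obtain ⟨g, hg, -, h1⟩ := hM.iso n hn
  have hhom := homog_pow hM.homogeneous n (X.dim - n)
  have e0 : n + 2 * (X.dim - n) = 2 * X.dim - n := by omega
  rw [e0] at hhom
  -- insert `π n`
  have h2 : C.comp (C.comp (C.comp (π (2 * X.dim - n)) g) (π n)) (corPow C L (X.dim - n)) =
      π (2 * X.dim - n) := by
    rw [comp_assoc C (C.comp (π (2 * X.dim - n)) g), hhom, ← comp_assoc C, h1, hπ.idem]
  rw [← h2, C.act_comp, C.act_comp, hyp, C.act_map_zero]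
  · have h0 : g ∈ C.gr (X.prod X) ((X.dim : ℤ) + ((n : ℤ) - (X.dim : ℤ))) := by
      have e : (X.dim : ℤ) + ((n : ℤ) - (X.dim : ℤ)) = (n : ℤ) := by ring
      rw [e]; exact hg
    have h3 := act_mem' C h0 (act_mem0 C (hπ.deg (2 * X.dim - n)) hx)
    have e : j + ((n : ℤ) - (X.dim : ℤ)) = j + n - X.dim := by ring
    rw [e] at h3
    rw [C.act_comp]
    exact h3
  · intro h0
    rw [C.act_comp, cl_act H, cl_act H, h0, H.act_map_zero, H.act_map_zero]

/-- Motivic hard Lefschetz: `π n` factors through `L ^ (d - n)`, so it kills `CH^j` for `n < j`. -/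
lemma act_low' {L : C.A (X.prod X)} (hL : C.Deg ((X.dim : ℤ) + 1) L) {π : ℕ → C.A (X.prod X)}
    (hπ : IsCK H X π) (hM : MotivicLefschetz C L π) {n j : ℕ} (hn : n < j) {x : C.A X}
    (hx : C.Deg j x) : C.act (π n) x = 0 := by
  by_cases hjd : X.dim < j
  · have h0 := hC.gr_top X j x hx (by exact_mod_cast hjd)
    rw [h0]; exact C.act_map_zero _
  obtain ⟨g, -, h1, -⟩ := hM.iso n (by omega)
  rw [← h1, C.act_comp, C.act_comp]
  have h3 := act_mem' C (corPow_mem hL (X.dim - n)) (act_mem0 C (hπ.deg n) hx)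
  have h4 : C.act (corPow C L (X.dim - n)) (C.act (π n) x) = 0 := by
    refine hC.gr_top X _ _ h3 ?_
    omega
  rw [h4]; exact C.act_map_zero _

/-- **(D) and (B) for decompositions with motivic hard Lefschetz.** -/
theorem of_lefschetz (hP : PicardFaithful H) {L : C.A (X.prod X)}
    (hL : C.Deg ((X.dim : ℤ) + 1) L) {π : ℕ → C.A (X.prod X)} (hπ : IsCK H X π)
    (hM : MotivicLefschetz C L π) :
    (∀ j : ℕ, j ≤ 1 ∨ X.dim ≤ j + 1 → DAt H π j) ∧
    (∀ j : ℕ, j ≤ 1 ∨ X.dim ≤ j + 2 → BAt C π j) ∧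
    (∀ j : ℕ, ckFil C π j (j + 1) = ⊥) := by
  have key : ∀ (i j : ℕ) (x : C.A X), C.Deg j x → X.dim ≤ i → i ≤ 2 * X.dim →
      j + X.dim ≤ i + 1 → (2 * j < i ∨ (2 * j ≤ i ∧ H.cl x = 0)) → C.act (π i) x = 0 := by
    intro i j x hx h1 h2 h3 h4
    obtain ⟨n, hn⟩ : ∃ n, n = 2 * X.dim - i := ⟨_, rfl⟩
    have e : i = 2 * X.dim - n := by omega
    rw [e]
    refine act_high' hπ hM (by omega) hx fun y hy hy0 => ?_
    by_cases hneg : (j : ℤ) + n - X.dim < 0
    · rw [C.gr_neg X _ hneg, Submodule.mem_bot] at hy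
      rw [hy]; exact C.act_map_zero _
    · obtain ⟨j', hj'⟩ := Int.eq_ofNat_of_zero_le (not_lt.1 hneg)
      rw [hj'] at hy
      rcases h4 with h4 | ⟨h4, h0⟩
      · exact low_B0 hP hπ (by omega) (by omega) hy
      · exact low_D hP hπ (by omega) (by omega) hy (hy0 h0)
  refine ⟨fun j hj => ?_, fun j hj => ?_, fun j => ?_⟩
  · rw [dAt_iff hπ]
    intro x hx h0 i hi
    by_cases hj1 : j ≤ 1
    · exact low_D hP hπ hj1 hi hx h0
    · by_cases hi2 : 2 * X.dim < i
      · rw [hπ.out i hi2]; exact C.act_zero x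
      · exact key i j x hx (by omega) (by omega) (by omega) (Or.inr ⟨hi, h0⟩)
  · rw [bAt_iff hπ]
    intro x hx i hi
    rcases hi with hi | hi
    · by_cases hj1 : j ≤ 1
      · exact low_B0 hP hπ hj1 hi hx
      · by_cases hi2 : 2 * X.dim < i
        · rw [hπ.out i hi2]; exact C.act_zero x
        · exact key i j x hx (by omega) (by omega) (by omega) (Or.inl hi)
    · exact act_low' hL hπ hM hi hx
  · rw [eq_bot_iff]
    intro x hx
    rw [hπ.mem_ckFil] at hx
    rw [Submodule.mem_bot]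
    have h1 : x = ∑ i ∈ Finset.range (2 * X.dim + 1), C.act (π i) x := by
      rw [← act_sum, hπ.sum, act_dg]
    rw [h1]
    refine Finset.sum_eq_zero fun i _ => ?_
    by_cases hij : i < j
    · exact act_low' hL hπ hM hij hx.1
    · exact hx.2 i (by omega)

/-- With motivic hard Lefschetz it is enough to consider (D) in codimension at most half the
dimension. -/
theorem dAt_of_half (hP : PicardFaithful H) {L : C.A (X.prod X)} {π : ℕ → C.A (X.prod X)}
    (hπ : IsCK H X π) (hM : MotivicLefschetz C L π)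
    (hh : ∀ j : ℕ, 2 ≤ j → 2 * j ≤ X.dim → DAt H π j) (j : ℕ) : DAt H π j := by
  have low : ∀ j n : ℕ, 2 * j ≤ n → n ≤ X.dim → ∀ x : C.A X, C.Deg j x → H.cl x = 0 →
      C.act (π n) x = 0 := by
    intro j n h1 h2 x hx h0
    by_cases hj : j ≤ 1
    · exact low_D hP hπ hj h1 hx h0
    · exact (dAt_iff hπ j).1 (hh j (by omega) (by omega)) x hx h0 n h1
  rw [dAt_iff hπ]
  intro x hx h0 i hi
  by_cases hi2 : 2 * X.dim < i
  · rw [hπ.out i hi2]; exact C.act_zero x
  by_cases hid : i ≤ X.dim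
  · exact low j i hi hid x hx h0
  obtain ⟨n, hn⟩ : ∃ n, n = 2 * X.dim - i := ⟨_, rfl⟩
  have e : i = 2 * X.dim - n := by omega
  rw [e]
  refine act_high' hπ hM (by omega) hx fun y hy hy0 => ?_
  by_cases hneg : (j : ℤ) + n - X.dim < 0
  · rw [C.gr_neg X _ hneg, Submodule.mem_bot] at hy
    rw [hy]; exact C.act_map_zero _
  · obtain ⟨j', hj'⟩ := Int.eq_ofNat_of_zero_le (not_lt.1 hneg)
    rw [hj'] at hy
    exact low j' n (by omega) (by omega) y hy (hy0 h0)

/-- With motivic hard Lefschetz it is enough to consider the first half of (B) in codimension less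
than half the dimension. -/
theorem bAt_of_half (hP : PicardFaithful H) {L : C.A (X.prod X)}
    (hL : C.Deg ((X.dim : ℤ) + 1) L) {π : ℕ → C.A (X.prod X)}
    (hπ : IsCK H X π) (hM : MotivicLefschetz C L π)
    (hh : ∀ j : ℕ, 2 ≤ j → 2 * j < X.dim → ckFil C π j 0 = C.gr X j) (j : ℕ) : BAt C π j := by
  have low : ∀ j n : ℕ, 2 * j < n → n ≤ X.dim → ∀ x : C.A X, C.Deg j x →
      C.act (π n) x = 0 := by
    intro j n h1 h2 x hx
    by_cases hj : j ≤ 1
    · exact low_B0 hP hπ hj h1 hx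
    · have h2 : x ∈ ckFil C π j 0 := by rw [hh j (by omega) (by omega)]; exact hx
      rw [hπ.mem_ckFil] at h2
      exact h2.2 n (by omega)
  rw [bAt_iff hπ]
  intro x hx i hi
  rcases hi with hi | hi
  swap
  · exact act_low' hL hπ hM hi hx
  by_cases hi2 : 2 * X.dim < i
  · rw [hπ.out i hi2]; exact C.act_zero x
  by_cases hid : i ≤ X.dim
  · exact low j i hi hid x hx
  obtain ⟨n, hn⟩ : ∃ n, n = 2 * X.dim - i := ⟨_, rfl⟩
  have e : i = 2 * X.dim - n := by omega
  rw [e]
  refine act_high' hπ hM (by omega) hx fun y hy _ => ?_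
  by_cases hneg : (j : ℤ) + n - X.dim < 0
  · rw [C.gr_neg X _ hneg, Submodule.mem_bot] at hy
    rw [hy]; exact C.act_map_zero _
  · obtain ⟨j', hj'⟩ := Int.eq_ofNat_of_zero_le (not_lt.1 hneg)
    rw [hj'] at hy
    exact low j' n (by omega) (by omega) y hy

end weil

end Pool.Agent.T2H38.MD
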