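import Pool.Agent.T2H38.MD.Basic

/-!
# Murre's conjectures (B) and (D): independence of the decomposition under nilpotence, and cycles
motivated by divisors
-/

set_option autoImplicit false

open CategoryTheory AlgebraicGeometry

universe u v w

namespace Pool.Agent.T2H38.MD

open Pool.Agent.H914 Pool.Agent.H914.VarClass Pool.Agent.H914.VarClass.Obj Pool.Agent.W492.BB
  Pool.Agent.W550.Corr Pool.Agent.TH133 Pool.Agent.Y107 Pool.Agent.Q73.LS

set_option linter.unusedSectionVars false

variable {k : Type u} [Field k] {𝒱 : VarClass k}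

section weil

variable {C : TheoryData.{u, v, 0} 𝒱 ℚ} [hC : IsChowProj C] {K : Type w} [Field K]
  {H : WeilTheoryData.{u, v, w} C K} [hH : IsWeilProj H] {X Y Z : 𝒱.Obj}

include hC hH

/-- Two Chow-Kunneth decompositions are conjugate by a unit acting as the identity on the
cohomology, if homologically trivial correspondences are nilpotent. -/
lemma exists_conj (hN : NilHom H X) {P P' : ℕ → Cor C X} (h : IsCK H X P) (h' : IsCK H X P') :
    ∃ u v : Cor C X, u ∈ cor0 C X ∧ v ∈ cor0 C X ∧ u * v = 1 ∧ v * u = 1 ∧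
      (∀ a : H.A X, actH C X H u a = a) ∧ (∀ a : H.A X, actH C X H v a = a) ∧
      ∀ i, P' i = u * P i * v := by
  obtain ⟨u, hu⟩ : ∃ u : Cor C X, u = ∑ i ∈ Finset.range (2 * X.dim + 1), P' i * P i := ⟨_, rfl⟩
  have hP0 : ∀ i, P i ∈ cor0 C X := h.deg
  have hP0' : ∀ i, P' i ∈ cor0 C X := h'.deg
  have hu0 : u ∈ cor0 C X := by
    rw [hu]
    exact Subalgebra.sum_mem _ fun i _ => (cor0 C X).mul_mem (hP0' i) (hP0 i)
  -- `u` is the identity on the cohomology
  have hact : ∀ a : H.A X, actH C X H u a = a := by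
    intro a
    have h1 : (actH C X H u : Module.End K (H.A X)) = LinearMap.id := by
      apply ext_gr H
      intro m a ha
      rw [LinearMap.id_apply, hu, map_sum, LinearMap.sum_apply]
      by_cases ha0 : a = 0
      · rw [ha0]; simp
      have hm0 := nonneg_of_mem H ha ha0
      have hm2 : m ≤ 2 * X.dim := by
        by_contra h3
        rw [gr_top (H := H) (by omega)] at ha
        exact ha0 ((Submodule.mem_bot _).1 ha)
      obtain ⟨m', rfl⟩ := Int.eq_ofNat_of_zero_le hm0
      rw [Finset.sum_eq_single m']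
      · rw [map_mul, Module.End.mul_apply, h.actH_eq' m' _ ha, if_pos rfl,
          h'.actH_eq' m' _ ha, if_pos rfl]
      · intro i _ hi
        rw [map_mul, Module.End.mul_apply, h.actH_eq' i _ ha, if_neg (by
          intro e; exact hi (by exact_mod_cast e.symm)), map_zero]
      · intro hi
        exact absurd (Finset.mem_range.2 (by omega)) hi
    rw [h1]; rfl
  -- `1 - u` is nilpotent
  obtain ⟨w, hw⟩ : ∃ w : Cor C X, w = 1 - u := ⟨_, rfl⟩
  have hw0 : w ∈ cor0 C X := by
    rw [hw]; exact (cor0 C X).sub_mem (cor0 C X).one_mem hu0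
  have hwH : H.cl (X := X.prod X) w = 0 := by
    apply hom_zero_of_act (H := H) (X := X) (Y := X)
    intro a
    have h1 : actH C X H w a = 0 := by
      rw [hw, map_sub, map_one, LinearMap.sub_apply, hact, Module.End.one_apply, sub_self]
    exact h1
  obtain ⟨n, hn⟩ := hN w hw0 hwH
  have hn' : w ^ n = 0 := by rw [← corPow_eq]; exact hn
  obtain ⟨v, hv⟩ : ∃ v : Cor C X, v = ∑ i ∈ Finset.range n, w ^ i := ⟨_, rfl⟩
  have hu' : u = 1 - w := by rw [hw]; abel
  have huv : u * v = 1 := by rw [hu', hv, mul_neg_geom_sum, hn', sub_zero]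
  have hvu : v * u = 1 := by rw [hu', hv, geom_sum_mul_neg, hn', sub_zero]
  have hv0 : v ∈ cor0 C X := by
    rw [hv]; exact Subalgebra.sum_mem _ fun i _ => (cor0 C X).pow_mem hw0 i
  have hactv : ∀ a : H.A X, actH C X H v a = a := by
    intro a
    have h1 : actH C X H (v * u) a = a := by rw [hvu, map_one]; rfl
    rw [map_mul, Module.End.mul_apply, hact] at h1
    exact h1
  refine ⟨u, v, hu0, hv0, huv, hvu, hact, hactv, fun i => ?_⟩
  have e1 : u * P i = P' i * u := by
    by_cases hi : i ∈ Finset.range (2 * X.dim + 1)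
    · have e2 : u * P i = P' i * P i := by
        rw [hu, Finset.sum_mul, Finset.sum_eq_single i]
        · rw [mul_assoc, h.mul_eq, if_pos rfl]
        · intro j _ hj
          rw [mul_assoc, h.mul_eq, if_neg hj, mul_zero]
        · intro h3; exact absurd hi h3
      have e3 : P' i * u = P' i * P i := by
        rw [hu, Finset.mul_sum, Finset.sum_eq_single i]
        · rw [← mul_assoc, h'.mul_eq, if_pos rfl]
        · intro j _ hj
          rw [← mul_assoc, h'.mul_eq, if_neg (Ne.symm hj), zero_mul]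
        · intro h3; exact absurd hi h3
      rw [e2, e3]
    · have hi' : 2 * X.dim < i := by rw [Finset.mem_range] at hi; omega
      have e2 : P i = 0 := h.out i hi'
      have e3 : P' i = 0 := h'.out i hi'
      rw [e2, e3, mul_zero, zero_mul]
  rw [e1, mul_assoc, huv, mul_one]

/-- transport of the vanishing of a projector -/
lemma transport (hN : NilHom H X) {P P' : ℕ → Cor C X} (h : IsCK H X P) (h' : IsCK H X P')
    {j : ℤ} {x : C.A X} (hx : x ∈ C.gr X j) (i : ℕ)
    (hv : ∀ y : C.A X, y ∈ C.gr X j → (H.cl x = 0 → H.cl y = 0) → actC C X (P i) y = 0) :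
    actC C X (P' i) x = 0 := by
  obtain ⟨u, v, -, hv0, -, -, -, hv1, hP⟩ := exists_conj hN h h'
  rw [hP i, map_mul, map_mul, Module.End.mul_apply, Module.End.mul_apply]
  have e2 : actC C X (P i) (actC C X v x) = 0 := by
    refine hv _ (act_mem0 C hv0 hx) fun h0 => ?_
    have h3 : H.cl (actC C X v x) = actH C X H v (H.cl x) := cl_act H (X := X) (Y := X) _ _
    rw [h3, hv1, h0]
  rw [e2, map_zero]

/-- (D) does not depend on the decomposition, if homologically trivial correspondences are
nilpotent. -/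
theorem DAt.of_nil (hN : NilHom H X) {π π' : ℕ → C.A (X.prod X)} (h : IsCK H X π)
    (h' : IsCK H X π') {j : ℕ} (hD : DAt H π j) : DAt H π' j := by
  rw [dAt_iff h] at hD
  rw [dAt_iff h']
  intro x hx h0 i hi
  exact transport hN (P := π) (P' := π') h h' hx i fun y hy hy0 => hD y hy (hy0 h0) i hi

/-- (B) does not depend on the decomposition, if homologically trivial correspondences are
nilpotent. -/
theorem BAt.of_nil (hN : NilHom H X) {π π' : ℕ → C.A (X.prod X)} (h : IsCK H X π)
    (h' : IsCK H X π') {j : ℕ} (hB : BAt C π j) : BAt C π' j := by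
  rw [bAt_iff h] at hB
  rw [bAt_iff h']
  intro x hx i hi
  exact transport hN (P := π) (P' := π') h h' hx i fun y hy _ => hB y hy i hi

/-- Correspondences between two varieties which act as zero on `H^1` act as zero on `Pic^0`. -/
lemma picard_two (hP : PicardFaithful H) {γ : C.A (X.prod Y)} (hγ : C.Deg X.dim γ)
    (h1 : Kills H γ 1) {z : C.A X} (hz : C.Deg 1 z) (h0 : H.cl z = 0) : C.act γ z = 0 := by
  obtain ⟨o, ho, ho1, ho2⟩ := exists_deg_one C Y
  obtain ⟨o', ho', ho1', ho2'⟩ := exists_deg_one C X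
  -- the self-correspondence of `X × Y`
  obtain ⟨A, hA⟩ : ∃ A : C.A ((X.prod Y).prod X), A =
    C.comp (C.mulCorr (C.pull (snd X Y) o)) (C.graph (fst X Y)) := ⟨_, rfl⟩
  have hAact : ∀ w : C.A (X.prod Y), C.act A w = C.push (fst X Y) (C.pull (snd X Y) o * w) := by
    intro w
    rw [hA, C.act_comp, C.act_mulCorr, C.act_graph]
  have hAH : ∀ w : H.A (X.prod Y), H.act (H.cl A) w =
      H.push (fst X Y) (H.pull (snd X Y) (H.cl o) * w) := by
    intro w
    have e1 : H.cl (C.mulCorr (C.pull (snd X Y) o)) = H.mulCorr (H.pull (snd X Y) (H.cl o)) := by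
      rw [TheoryData.mulCorr, TheoryData.mulCorr, H.cl_push, H.cl_pull]
    have e2 : H.cl (C.graph (fst X Y)) = H.graph (fst X Y) := by
      rw [TheoryData.graph, TheoryData.graph, H.cl_push, map_one]
    rw [hA, actH_comp, e1, e2, H.act_mulCorr, H.act_graph]
  have hBH : ∀ w : H.A Y, H.act (H.cl (C.cograph (snd X Y))) w = H.pull (snd X Y) w := by
    intro w
    have e2 : H.cl (C.cograph (snd X Y)) = H.cograph (snd X Y) := by
      rw [TheoryData.cograph, TheoryData.cograph, H.cl_push, map_one]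
    rw [e2, H.act_cograph]
  have hAdeg : A ∈ C.gr _ (((X.prod Y).dim : ℤ) + 0) := by
    have e1 : C.mulCorr (C.pull (snd X Y) o) ∈
        C.gr _ (((X.prod Y).dim : ℤ) + (Y.dim : ℤ)) := by
      have h := C.push_mem (Obj.lift (𝟙 (X.prod Y)) (𝟙 (X.prod Y))) (C.pull_mem (snd X Y) ho)
      have e1 : (Y.dim : ℤ) + 1 * ((((X.prod Y).prod (X.prod Y)).dim : ℤ) - ((X.prod Y).dim : ℤ)) =
          (X.prod Y).dim + Y.dim := by
        rw [dim_prod (X.prod Y)]; push_cast; ring
      rwa [e1] at h
    have e2 : C.graph (fst X Y) ∈ C.gr _ (((X.prod Y).dim : ℤ) + (-(Y.dim : ℤ))) := by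
      have h := graph_mem' (C := C) (fst X Y)
      have e : ((X.prod Y).dim : ℤ) + (-(Y.dim : ℤ)) = X.dim := by
        rw [dim_prod]; push_cast; ring
      rw [e]; exact h
    have e3 := comp_mem C e1 e2
    rw [add_neg_cancel] at e3
    rw [hA]; exact e3
  have hγ' : γ ∈ C.gr _ ((X.dim : ℤ) + 0) := by rw [add_zero]; exact hγ
  have hBdeg : C.cograph (snd X Y) ∈ C.gr _ ((Y.dim : ℤ) + 0) := by
    rw [add_zero]; exact cograph_mem (snd X Y)
  have hdeg := comp_mem C (comp_mem C hAdeg hγ') hBdeg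
  have key := hP (X.prod Y) (C.comp (C.comp A γ) (C.cograph (snd X Y))) (by
      simpa using hdeg) (by
    intro a ha
    rw [actH_comp, actH_comp, hBH, hAH, h1, map_zero]
    have h3 : H.pull (snd X Y) (H.cl o) ∈ H.gr (X.prod Y) (2 * (Y.dim : ℤ)) :=
      H.pull_mem (snd X Y) (H.cl_mem ho)
    have h4 := H.push_mem (fst X Y) (H.mul_mem h3 ha)
    have e : 2 * (Y.dim : ℤ) + 1 + 2 * ((X.dim : ℤ) - ((X.prod Y).dim : ℤ)) = 1 := by
      rw [dim_prod]; push_cast; ring
    rw [e] at h4
    exact h4) (C.pull (fst X Y) z) (C.pull_mem _ hz) (by rw [H.cl_pull, h0, map_zero])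
  rw [C.act_comp, C.act_comp, C.act_cograph, hAact, C.proj_right, ho1, one_mul] at key
  have h5 : C.push (snd X Y) (C.pull (fst X Y) o' * C.pull (snd X Y) (C.act γ z)) =
      C.act γ z := by
    rw [C.proj_right, ho2', one_mul]
  rw [← h5, key, mul_zero, map_zero]

/-- If the homologically trivial cycles of codimension `j` are motivated by divisors, then (D) holds
in codimension `j` for all Chow-Kunneth decompositions. -/
theorem DAt.of_divisors (hP : PicardFaithful H) {j : ℕ} (hF : FromDivisors H X j)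
    {π : ℕ → C.A (X.prod X)} (h : IsCK H X π) : DAt H π j := by
  rw [dAt_iff h]
  intro x hx h0 i hi
  obtain ⟨m, Y, a, b, hab, hsum⟩ := hF
  have hx1 : C.Deg j (C.act (π i) x) := act_mem0 C (h.deg i) hx
  have hx2 : H.cl (C.act (π i) x) = 0 := by
    rw [cl_act H, h0]; exact H.act_map_zero _
  rw [hsum _ hx1 hx2]
  refine Finset.sum_eq_zero fun s _ => ?_
  have h3 : C.act (a s) (C.act (π i) x) = 0 := by
    conv_lhs => rw [hsum x hx h0]
    rw [act_map_sum, act_map_sum]
    refine Finset.sum_eq_zero fun t _ => ?_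
    rw [← C.act_comp, ← C.act_comp]
    have ha : ∀ s, a s ∈ C.gr (X.prod (Y s)) ((X.dim : ℤ) + (1 - (j : ℤ))) := fun s => by
      have e : (X.dim : ℤ) + (1 - (j : ℤ)) = (X.dim : ℤ) + 1 - j := by ring
      rw [e]; exact (hab s).1
    have hb : b t ∈ C.gr ((Y t).prod X) (((Y t).dim : ℤ) + ((j : ℤ) - 1)) := by
      have e : ((Y t).dim : ℤ) + ((j : ℤ) - 1) = ((Y t).dim : ℤ) + j - 1 := by ring
      rw [e]; exact (hab t).2
    have hπ0 : π i ∈ C.gr (X.prod X) ((X.dim : ℤ) + 0) := by rw [add_zero]; exact h.deg i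
    have hdeg := comp_mem C hb (comp_mem C hπ0 (ha s))
    have e : ((Y t).dim : ℤ) + ((j : ℤ) - 1 + (0 + (1 - (j : ℤ)))) = (Y t).dim := by ring
    rw [e] at hdeg
    have hxt : C.act (a t) x ∈ C.gr (Y t) 1 := by
      have h4 := act_mem' C (ha t) hx
      have e : (j : ℤ) + (1 - (j : ℤ)) = 1 := by ring
      rwa [e] at h4
    refine picard_two hP hdeg ?_ hxt ?_
    · intro c hc
      rw [actH_comp, actH_comp]
      have h5 : H.act (H.cl (b t)) c ∈ H.gr X (2 * (j : ℤ) - 1) := by
        have h6 := actH_mem H hb hc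
        have e : (1 : ℤ) + 2 * ((j : ℤ) - 1) = 2 * (j : ℤ) - 1 := by ring
        rwa [e] at h6
      rw [h.act_ne i (2 * (j : ℤ) - 1) _ (by omega) h5, H.act_map_zero]
    · rw [cl_act H, h0]; exact H.act_map_zero _
  rw [h3]; exact C.act_map_zero _

end weil

end Pool.Agent.T2H38.MD
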