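import Pool.Agent.T2H38.MD.Lef

/-!
# Cycles motivated by divisors and decompositions of the diagonal
-/

set_option autoImplicit false

open CategoryTheory AlgebraicGeometry

universe u v w

namespace Pool.Agent.T2H38.MD

open Pool.Agent.H914 Pool.Agent.H914.VarClass Pool.Agent.H914.VarClass.Obj Pool.Agent.W492.BB
  Pool.Agent.W550.Corr Pool.Agent.TH133 Pool.Agent.Y107 Pool.Agent.Q73.LS

set_option linter.unusedSectionVars false

variable {k : Type u} [Field k] {𝒱 : VarClass k}

variable {C : TheoryData.{u, v, 0} 𝒱 ℚ} [hC : IsChowProj C] {K : Type w} [Field K]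
  {H : WeilTheoryData.{u, v, w} C K} [hH : IsWeilProj H] {X Y : 𝒱.Obj}

include hC hH

theorem FromDivisors.of_dec {j : ℕ} (h : DiagonalDec C X j) : FromDivisors H X j := by
  classical
  obtain ⟨m, Y, e, a, b, h1, h2⟩ := h
  refine ⟨m, Y, fun s => if e s + 1 = j then a s else 0, fun s => if e s + 1 = j then b s else 0,
    fun s => ?_, fun x hx h0 => ?_⟩
  · obtain ⟨ha, hb, -⟩ := h1 s
    constructor
    · beta_reduce
      split_ifs with hs
      · have e1 : (X.dim : ℤ) + 1 - j = (X.dim : ℤ) - e s := by omega
        rw [e1]; exact ha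
      · exact Submodule.zero_mem _
    · beta_reduce
      split_ifs with hs
      · have e1 : ((Y s).dim : ℤ) + j - 1 = ((Y s).dim : ℤ) + e s := by omega
        rw [e1]; exact hb
      · exact Submodule.zero_mem _
  · have h3 : x = ∑ s, C.act (b s) (C.act (a s) x) := by
      have h4 : C.act (dg C X) x = x := act_dg _ x
      conv_lhs => rw [← h4, h2]
      rw [act_sum]
      exact Finset.sum_congr rfl fun s _ => by rw [C.act_comp]
    conv_lhs => rw [h3]
    refine Finset.sum_congr rfl fun s _ => ?_
    obtain ⟨ha, hb, hs⟩ := h1 s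
    dsimp only
    split_ifs with he
    · rfl
    · have ha' : a s ∈ C.gr (X.prod (Y s)) ((X.dim : ℤ) + -(e s : ℤ)) := by
        rw [← sub_eq_add_neg]; exact ha
      have hy := act_mem' C ha' hx
      have hy0 : H.cl (C.act (a s) x) = 0 := by
        rw [cl_act H, h0]; exact H.act_map_zero _
      have hz : C.act (a s) x = 0 := by
        rcases hs with hs | hs
        · rcases Nat.lt_or_ge j (e s) with h4 | h4
          · rw [C.gr_neg (Y s) _ (by omega), Submodule.mem_bot] at hy
            exact hy
          · have e1 : (j : ℤ) + -(e s : ℤ) = 0 := by omega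
            rw [e1] at hy
            exact eq_zero_of_deg0 (H := H) hy hy0
        · exact hC.gr_top (Y s) _ _ hy (by omega)
      rw [hz, C.act_map_zero, C.act_zero]

end Pool.Agent.T2H38.MD
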