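import Pool.Agent.T2H38.MD.Nil

/-!
# Murre's conjectures for varieties satisfying the standard conjecture of Lefschetz type
-/

set_option autoImplicit false

open CategoryTheory AlgebraicGeometry

universe u v w

namespace Pool.Agent.T2H38.MD

open Pool.Agent.H914 Pool.Agent.H914.VarClass Pool.Agent.H914.VarClass.Obj Pool.Agent.W492.BB
  Pool.Agent.W550.Corr Pool.Agent.TH133 Pool.Agent.Y107 Pool.Agent.Q73.LS

set_option linter.unusedSectionVars false

variable {k : Type u} [Field k] {𝒱 : VarClass k}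

variable {C : TheoryData.{u, v, 0} 𝒱 ℚ} [hC : IsChowProj C] {K : Type w} [Field K]
  {H : WeilTheoryData.{u, v, w} C K} [hH : IsWeilProj H] {X Y : 𝒱.Obj}

include hC hH

/-- Under nilpotence and the standard conjecture of Lefschetz type all Chow-Kunneth decompositions
satisfy motivic hard Lefschetz. -/
theorem hasLefschetz_of_nil (hN : NilHom H X) {L : C.A (X.prod X)} (hL : LefschetzStandard H X L)
    {π : ℕ → C.A (X.prod X)} (hπ : IsCK H X π) : HasLefschetz C π := by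
  obtain ⟨M, h1, -, h2⟩ := lefschetz_of_nil (C := C) (H := H) (X := X) hN (L := L) hL (P := π) hπ
  exact ⟨M, h1, h2⟩

theorem murreD_lefschetz (hP : PicardFaithful H) {π : ℕ → C.A (X.prod X)} (hπ : IsCK H X π)
    (hM : HasLefschetz C π) :
    (∀ j : ℕ, j ≤ 1 ∨ X.dim ≤ j + 1 → DAt H π j) ∧
    ((∀ j : ℕ, 2 ≤ j → 2 * j ≤ X.dim → DAt H π j) → ∀ j : ℕ, DAt H π j) := by
  obtain ⟨L, hL, hM⟩ := hM
  exact ⟨(of_lefschetz hP hL hπ hM).1, fun h => dAt_of_half hP hπ hM h⟩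

theorem murreB_lefschetz (hP : PicardFaithful H) {π : ℕ → C.A (X.prod X)} (hπ : IsCK H X π)
    (hM : HasLefschetz C π) :
    (∀ j : ℕ, ckFil C π j (j + 1) = ⊥) ∧
    (∀ j : ℕ, j ≤ 1 ∨ X.dim ≤ j + 2 → ckFil C π j 0 = C.gr X j) ∧
    ((∀ j : ℕ, 2 ≤ j → 2 * j < X.dim → ckFil C π j 0 = C.gr X j) →
      ∀ j : ℕ, ckFil C π j 0 = C.gr X j) := by
  obtain ⟨L, hL, hM⟩ := hM
  obtain ⟨-, h2, h3⟩ := of_lefschetz hP hL hπ hM
  exact ⟨h3, fun j hj => (h2 j hj).1, fun h j => (bAt_of_half hP hL hπ hM h j).1⟩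

/-- (D) in codimension `j` implies the first half of (B) in codimension `j`. -/
theorem B0_of_D {π : ℕ → C.A (X.prod X)} (hπ : IsCK H X π) {j : ℕ} (hD : DAt H π j) :
    ckFil C π j 0 = C.gr X j := by
  rw [dAt_iff hπ] at hD
  ext x
  rw [hπ.mem_ckFil]
  refine ⟨fun h' => h'.1, fun hx => ⟨hx, fun i hi => ?_⟩⟩
  have h1 : H.cl (C.act (π i) x) = 0 := by
    rw [cl_act H]
    exact hπ.act_ne i (2 * j) _ (by omega) (H.cl_mem hx)
  have h2 := hD (C.act (π i) x) (act_mem0 C (hπ.deg i) hx) h1 i (by omega)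
  rw [← C.act_comp, hπ.idem] at h2
  exact h2

end Pool.Agent.T2H38.MD
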