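import Pool.Agent.T2H38.MD.Prod

/-!
# Motivic hard Lefschetz for all Chow-Kunneth decompositions under nilpotence
-/

set_option autoImplicit false

open CategoryTheory AlgebraicGeometry

universe u v w

namespace Pool.Agent.T2H38.MD

open Pool.Agent.H914 Pool.Agent.H914.VarClass Pool.Agent.H914.VarClass.Obj Pool.Agent.W492.BB
  Pool.Agent.W550.Corr Pool.Agent.TH133 Pool.Agent.Y107 Pool.Agent.Q73.LS

set_option linter.unusedSectionVars false

variable {k : Type u} [Field k] {𝒱 : VarClass k}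

variable {C : TheoryData.{u, v, 0} 𝒱 ℚ} [hC : IsChowProj C] {K : Type w} [Field K]
  {H : WeilTheoryData.{u, v, w} C K} [hH : IsWeilProj H] {X Y : 𝒱.Obj}

include hC hH

omit hC hH in
lemma pow_of_homog {R : Type*} [Ring R] {P : ℕ → R} {L : R} (h : ∀ n, L * P n = P (n + 2) * L)
    (c n : ℕ) : L ^ c * P n = P (n + 2 * c) * L ^ c := by
  induction c generalizing n with
  | zero => simp
  | succ c ih =>
    rw [pow_succ', mul_assoc, ih, ← mul_assoc, h, mul_assoc]
    rfl

/-- the homogeneous part of a correspondence of degree one -/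
lemma homog_part {P : ℕ → Cor C X} (h : IsCK H X P) (L : Cor C X) (n : ℕ) :
    (∑ m ∈ Finset.range (2 * X.dim + 1), P (m + 2) * L * P m) * P n =
      P (n + 2) * L * P n ∧
    P (n + 2) * (∑ m ∈ Finset.range (2 * X.dim + 1), P (m + 2) * L * P m) =
      P (n + 2) * L * P n := by
  by_cases hn : n ∈ Finset.range (2 * X.dim + 1)
  · constructor
    · rw [Finset.sum_mul, Finset.sum_eq_single n]
      · rw [mul_assoc _ (P n), h.mul_eq, if_pos rfl]
      · intro m _ hm
        rw [mul_assoc _ (P m), h.mul_eq, if_neg hm, mul_zero]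
      · intro h1; exact absurd hn h1
    · rw [Finset.mul_sum, Finset.sum_eq_single n]
      · rw [← mul_assoc, ← mul_assoc, h.mul_eq, if_pos rfl]
      · intro m _ hm
        rw [← mul_assoc, ← mul_assoc, h.mul_eq, if_neg (by omega), zero_mul, zero_mul]
      · intro h1; exact absurd hn h1
  · have hn' : 2 * X.dim < n := by rw [Finset.mem_range] at hn; omega
    have e1 : P n = 0 := h.out n hn'
    have e2 : P (n + 2) = 0 := h.out (n + 2) (by omega)
    rw [e1, e2, mul_zero, zero_mul, zero_mul, zero_mul]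
    exact ⟨rfl, rfl⟩

/-- the action of the homogeneous part on the cohomology -/
lemma homog_act {P : ℕ → Cor C X} (h : IsCK H X P) {L : Cor C X} (hL : L ∈ crg C X 1) :
    actH C X H (∑ m ∈ Finset.range (2 * X.dim + 1), P (m + 2) * L * P m) = actH C X H L := by
  apply ext_gr H
  intro m a ha
  by_cases ha0 : a = 0
  · rw [ha0]; simp
  have hm0 := nonneg_of_mem H ha ha0
  have hm2 : m ≤ 2 * X.dim := by
    by_contra h3
    rw [gr_top (H := H) (by omega)] at ha
    exact ha0 ((Submodule.mem_bot _).1 ha)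
  obtain ⟨m', rfl⟩ := Int.eq_ofNat_of_zero_le hm0
  have hLa : actH C X H L a ∈ H.gr X ((m' : ℤ) + 2) := by
    have := actH_crg (H := H) hL ha
    simpa using this
  rw [map_sum, LinearMap.sum_apply, Finset.sum_eq_single m']
  · rw [map_mul, map_mul, Module.End.mul_apply, Module.End.mul_apply, h.actH_eq' m' _ ha,
      if_pos rfl, h.actH_eq' (m' + 2) ((m' : ℤ) + 2) hLa, if_pos (by push_cast; ring)]
  · intro i _ hi
    rw [map_mul, map_mul, Module.End.mul_apply, Module.End.mul_apply, h.actH_eq' i _ ha, if_neg (by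
      intro e; exact hi (by exact_mod_cast e.symm)), map_zero, map_zero]
  · intro hi
    exact absurd (Finset.mem_range.2 (by omega)) hi

/-- a homologically trivial corner is nilpotent -/
lemma nil_inv (hN : NilHom H X) {w : Cor C X} (hw : w ∈ cor0 C X)
    (h0 : actH C X H w = 0) : ∃ U : Cor C X, U ∈ cor0 C X ∧ U * (1 - w) = 1 ∧ (1 - w) * U = 1 := by
  have hwH : H.cl (X := X.prod X) w = 0 := by
    apply hom_zero_of_act (H := H) (X := X) (Y := X)
    intro a
    have h1 : actH C X H w a = 0 := by rw [h0]; rfl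
    exact h1
  obtain ⟨n, hn⟩ := hN w hw hwH
  have hn' : w ^ n = 0 := by rw [← corPow_eq]; exact hn
  refine ⟨∑ i ∈ Finset.range n, w ^ i, Subalgebra.sum_mem _ fun i _ => (cor0 C X).pow_mem hw i,
    ?_, ?_⟩
  · rw [geom_sum_mul_neg, hn', sub_zero]
  · rw [mul_neg_geom_sum, hn', sub_zero]

omit hC hH in
/-- lifting of an isomorphism: ring version -/
lemma ring_iso {R : Type*} [Ring R] {P Q A B U U' : R} (hP : P * P = P) (hQ : Q * Q = Q)
    (hAP : A * P = A) (hQA : Q * A = A) (hPB : P * B = B)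
    (hU : U * (1 - (P - B * A)) = 1) (hU' : (1 - (Q - A * B)) * U' = 1) :
    (P * U * B) * A = P ∧ A * (P * U * B) * Q = Q := by
  have e1 : (P * U * B) * A = P := by
    have h1 : (1 - (P - B * A)) * P = B * A := by
      rw [sub_mul, one_mul, sub_mul, hP, mul_assoc, hAP]; abel
    calc (P * U * B) * A = P * (U * (B * A)) := by noncomm_ring
      _ = P * (U * ((1 - (P - B * A)) * P)) := by rw [h1]
      _ = P * ((U * (1 - (P - B * A))) * P) := by noncomm_ring
      _ = P := by rw [hU, one_mul, hP]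
  refine ⟨e1, ?_⟩
  have h2 : Q * (1 - (Q - A * B)) = A * B := by
    rw [mul_sub, mul_one, mul_sub, hQ, ← mul_assoc, hQA]; abel
  have e2 : A * (B * U' * Q) = Q := by
    calc A * (B * U' * Q) = (A * B) * U' * Q := by noncomm_ring
      _ = Q * (1 - (Q - A * B)) * U' * Q := by rw [h2]
      _ = Q * ((1 - (Q - A * B)) * U') * Q := by noncomm_ring
      _ = Q := by rw [hU', mul_one, hQ]
  have e3 : (P * U * B) * Q = B * U' * Q := by
    calc (P * U * B) * Q = (P * U * B) * (A * (B * U' * Q)) := by rw [e2]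
      _ = ((P * U * B) * A) * (B * U' * Q) := by noncomm_ring
      _ = P * (B * U' * Q) := by rw [e1]
      _ = (P * B) * U' * Q := by noncomm_ring
      _ = B * U' * Q := by rw [hPB]
  calc A * (P * U * B) * Q = A * ((P * U * B) * Q) := by noncomm_ring
    _ = Q := by rw [e3, e2]

/-- the left inverse modulo homologically trivial correspondences -/
lemma corner_left {P : ℕ → Cor C X} (h : IsCK H X P) {M L g : Cor C X} (hL : L ∈ crg C X 1)
    (hM : actH C X H M = actH C X H L) {n : ℕ} (hn : n ≤ X.dim)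
    (hg1 : ∀ a : H.A X, a ∈ H.gr X n →
      actH C X H g (actH C X H (L ^ (X.dim - n)) a) = a) :
    actH C X H (P n - P n * g * P (2 * X.dim - n) * (M ^ (X.dim - n) * P n)) = 0 := by
  have hMpow : actH C X H (M ^ (X.dim - n)) = actH C X H (L ^ (X.dim - n)) := by
    rw [map_pow, map_pow, hM]
  have hcast : ((2 * X.dim - n : ℕ) : ℤ) = 2 * (X.dim : ℤ) - n := by omega
  apply ext_gr H
  intro m a ha
  rw [LinearMap.zero_apply, map_sub, LinearMap.sub_apply]
  simp only [map_mul, Module.End.mul_apply]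
  rw [h.actH_eq' n _ ha]
  by_cases hm : m = n
  · subst hm
    rw [if_pos rfl, hMpow]
    have h1 : actH C X H (L ^ (X.dim - n)) a ∈ H.gr X (2 * (X.dim : ℤ) - n) := by
      have h2 := crg_pow hL (X.dim - n)
      rw [mul_one, Nat.cast_sub hn] at h2
      have h3 := actH_crg (H := H) h2 ha
      rwa [show (n : ℤ) + 2 * ((X.dim : ℤ) - n) = 2 * (X.dim : ℤ) - n by ring] at h3
    rw [h.actH_eq' (2 * X.dim - n) _ h1, if_pos hcast.symm, hg1 a ha, h.actH_eq' n _ ha,
      if_pos rfl, sub_self]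
  · rw [if_neg hm, map_zero, map_zero, map_zero, map_zero, sub_zero]

/-- the right inverse modulo homologically trivial correspondences -/
lemma corner_right {P : ℕ → Cor C X} (h : IsCK H X P) {M L g : Cor C X}
{n : ℕ}
    (hgm : g ∈ crg C X ((n : ℤ) - X.dim)) (hM : actH C X H M = actH C X H L) (hn : n ≤ X.dim)
    (hg2 : ∀ a : H.A X, a ∈ H.gr X (2 * (X.dim : ℤ) - n) →
      actH C X H (L ^ (X.dim - n)) (actH C X H g a) = a) :
    actH C X H (P (2 * X.dim - n) -
      M ^ (X.dim - n) * P n * (P n * g * P (2 * X.dim - n))) = 0 := by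
  have hMpow : actH C X H (M ^ (X.dim - n)) = actH C X H (L ^ (X.dim - n)) := by
    rw [map_pow, map_pow, hM]
  have hcast : ((2 * X.dim - n : ℕ) : ℤ) = 2 * (X.dim : ℤ) - n := by omega
  apply ext_gr H
  intro m a ha
  rw [LinearMap.zero_apply, map_sub, LinearMap.sub_apply]
  simp only [map_mul, Module.End.mul_apply]
  rw [h.actH_eq' (2 * X.dim - n) _ ha]
  by_cases hm : m = ((2 * X.dim - n : ℕ) : ℤ)
  · rw [if_pos hm]
    have hg3 : actH C X H g a ∈ H.gr X n := by
      have h3 := actH_crg (H := H) hgm ha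
      rwa [hm, hcast, show 2 * (X.dim : ℤ) - n + 2 * ((n : ℤ) - X.dim) = n by ring] at h3
    rw [h.actH_eq' n _ hg3, if_pos rfl, h.actH_eq' n _ hg3, if_pos rfl, hMpow, hg2 a (by
      rw [hm, hcast] at ha; exact ha), sub_self]
  · rw [if_neg hm, map_zero, map_zero, map_zero, map_zero, sub_zero]

/-- **Motivic hard Lefschetz for all Chow-Kunneth decompositions under nilpotence.** -/
theorem lefschetz_of_nil (hN : NilHom H X) {L : Cor C X}
    (hL : LefschetzStandard H X (L : C.A (X.prod X))) {P : ℕ → Cor C X} (h : IsCK H X P) :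
    ∃ M : Cor C X, M ∈ crg C X 1 ∧ H.cl (X := X.prod X) M = H.cl (X := X.prod X) L ∧
      MotivicLefschetz C (X := X) M P := by
  obtain ⟨hL1, hL2⟩ := hL
  have hP0 : ∀ n, P n ∈ crg C X 0 := fun n => crg_zero_iff.2 (h.deg n)
  have hLc : L ∈ crg C X 1 := hL1
  obtain ⟨M, hM⟩ : ∃ M : Cor C X, M =
    ∑ m ∈ Finset.range (2 * X.dim + 1), P (m + 2) * L * P m := ⟨_, rfl⟩
  have hMm : M ∈ crg C X 1 := by
    rw [hM]
    refine Submodule.sum_mem _ fun m _ => ?_
    have := crg_mul (crg_mul (hP0 (m + 2)) hLc) (hP0 m)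
    simpa using this
  have hMact : actH C X H M = actH C X H L := by rw [hM]; exact homog_act h hLc
  have hMh : ∀ n, M * P n = P (n + 2) * M := by
    intro n
    obtain ⟨e1, e2⟩ := homog_part h L n
    rw [hM, e1, e2]
  have hPP : ∀ n, P n * P n = P n := fun n => by rw [h.mul_eq, if_pos rfl]
  refine ⟨M, hMm, ?_, ⟨hMh, fun n hn => ?_⟩⟩
  · have h1 : H.cl (X := X.prod X) (M - L) = 0 := by
      apply hom_zero_of_act (H := H) (X := X) (Y := X)
      intro a
      have h2 : actH C X H (M - L) a = 0 := by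
        rw [map_sub, hMact, sub_self]; rfl
      exact h2
    have h2 : H.cl (X := X.prod X) M - H.cl (X := X.prod X) L = 0 := by
      rw [← h1]; exact (map_sub H.cl _ _).symm
    exact sub_eq_zero.1 h2
  obtain ⟨g', hg, hg1, hg2⟩ := hL2 n hn
  obtain ⟨g, hgg⟩ : ∃ g : Cor C X, g = g' := ⟨g', rfl⟩
  rw [corPow_eq] at hg1 hg2
  rw [← hgg] at hg hg1 hg2
  obtain ⟨A, hA⟩ : ∃ A : Cor C X, A = M ^ (X.dim - n) * P n := ⟨_, rfl⟩
  obtain ⟨B, hB⟩ : ∃ B : Cor C X, B = P n * g * P (2 * X.dim - n) := ⟨_, rfl⟩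
  have hgm : g ∈ crg C X ((n : ℤ) - X.dim) := by
    rw [mem_crg, show (X.dim : ℤ) + ((n : ℤ) - X.dim) = n by ring]
    exact hg
  have hMp : M ^ (X.dim - n) ∈ crg C X ((X.dim : ℤ) - n) := by
    have := crg_pow hMm (X.dim - n)
    rwa [mul_one, Nat.cast_sub hn] at this
  have hAm : A ∈ crg C X ((X.dim : ℤ) - n) := by
    rw [hA]
    have := crg_mul hMp (hP0 n)
    rwa [add_zero] at this
  have hBm : B ∈ crg C X ((n : ℤ) - X.dim) := by
    rw [hB]
    have := crg_mul (crg_mul (hP0 n) hgm) (hP0 (2 * X.dim - n))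
    rwa [add_zero, zero_add] at this
  have hpw := pow_of_homog hMh (X.dim - n) n
  rw [show n + 2 * (X.dim - n) = 2 * X.dim - n by omega] at hpw
  have hAP : A * P n = A := by rw [hA, mul_assoc, hPP]
  have hQA : P (2 * X.dim - n) * A = A := by
    rw [hA, hpw, ← mul_assoc, hPP]
  have hPB : P n * B = B := by rw [hB, ← mul_assoc, ← mul_assoc, hPP]
  have hBA0 : B * A ∈ crg C X 0 := by
    have := crg_mul hBm hAm
    rwa [show (n : ℤ) - X.dim + (X.dim - n) = 0 by ring] at this
  have hAB0 : A * B ∈ crg C X 0 := by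
    have := crg_mul hAm hBm
    rwa [show (X.dim : ℤ) - n + (n - X.dim) = 0 by ring] at this
  have c1 : actH C X H (P n - B * A) = 0 := by
    rw [hA, hB]
    exact corner_left h hLc hMact hn hg1
  have c2 : actH C X H (P (2 * X.dim - n) - A * B) = 0 := by
    rw [hA, hB]
    exact corner_right h hgm hMact hn hg2
  obtain ⟨U, hU0, hU, -⟩ := nil_inv hN (w := P n - B * A)
    (crg_zero_iff.1 (Submodule.sub_mem _ (hP0 n) hBA0)) c1
  obtain ⟨U', -, -, hU'⟩ := nil_inv hN (w := P (2 * X.dim - n) - A * B)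
    (crg_zero_iff.1 (Submodule.sub_mem _ (hP0 (2 * X.dim - n)) hAB0)) c2
  obtain ⟨r1, r2⟩ := ring_iso (hPP n) (hPP (2 * X.dim - n)) hAP hQA hPB hU hU'
  refine ⟨P n * U * B, ?_, ?_, ?_⟩
  · have h1 := crg_mul (crg_mul (hP0 n) (crg_zero_iff.2 hU0)) hBm
    rw [add_zero, zero_add, mem_crg, show (X.dim : ℤ) + ((n : ℤ) - X.dim) = n by ring] at h1
    exact h1
  · rw [corPow_eq]
    have h1 : (P n * U * B) * (M ^ (X.dim - n) * P n) = P n := by rw [← hA]; exact r1
    exact h1
  · rw [corPow_eq]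
    have h1 : M ^ (X.dim - n) * ((P n * U * B) * P (2 * X.dim - n)) = P (2 * X.dim - n) := by
      have h2 : M ^ (X.dim - n) * ((P n * U * B) * P (2 * X.dim - n)) =
          (M ^ (X.dim - n) * P n) * (P n * U * B) * P (2 * X.dim - n) := by
        have h3 : P n * (P n * U * B) = P n * U * B := by
          rw [← mul_assoc, ← mul_assoc, hPP]
        rw [mul_assoc (M ^ (X.dim - n)) (P n) (P n * U * B), h3,
          mul_assoc (M ^ (X.dim - n)) (P n * U * B)]
      rw [h2, ← hA]
      exact r2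
    exact h1

end Pool.Agent.T2H38.MD
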