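import Pool.Agent.X308.S.BB
import Pool.Agent.X308.S.TriMain

/-!
# The conjectures of Murre for all Chow-Kunneth decompositions of varieties of surface type
-/

open CategoryTheory AlgebraicGeometry

set_option autoImplicit false

universe u v w

namespace Pool.Agent.T2H38.MD

open Pool.Agent.H914 Pool.Agent.W492.BB Pool.Agent.TH133 Pool.Agent.X308.S

variable {k : Type u} [Field k] {𝒱 : VarClass k} {C : TheoryData.{u, v, 0} 𝒱 ℚ}
    [IsChowProj C] {K : Type w} [Field K] {H : WeilTheoryData.{u, v, w} C K} [IsWeilProj H]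
    {X : 𝒱.Obj}

theorem surface_tfae (hS : SurfaceProperties H) (hX : OfSurfaceType C X) :
    List.TFAE [MurreB0 H X ∧ MurreB1 H X, MurreB1 H X, MurreC H X, MurreD H X,
      PhantomsActTrivially H X] := by
  obtain ⟨π, h1, -, h3⟩ := exists_selfDual_CK hS hX
  exact tfae_murre h1 (noRaising_of_wt hS h3) (B0_of_wt h1 h3) (B1_of_wt hS h1 h3)
    (D_of_wt hS h1 h3)

end Pool.Agent.T2H38.MD
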