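import Pool.Agent.T2H38.MD.Conj

/-!
# Products of varieties with motivic hard Lefschetz
-/

set_option autoImplicit false

open CategoryTheory AlgebraicGeometry

universe u v w

namespace Pool.Agent.T2H38.MD

open Pool.Agent.H914 Pool.Agent.H914.VarClass Pool.Agent.H914.VarClass.Obj Pool.Agent.W492.BB
  Pool.Agent.W550.Corr Pool.Agent.TH133 Pool.Agent.Y107 Pool.Agent.Q73.LS

set_option linter.unusedSectionVars false

variable {k : Type u} [Field k] {𝒱 : VarClass k}

variable {C : TheoryData.{u, v, 0} 𝒱 ℚ} [hC : IsChowProj C] {K : Type w} [Field K]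
  {H : WeilTheoryData.{u, v, w} C K} [hH : IsWeilProj H] {X Y : 𝒱.Obj}

section sl2

include hC hH

variable {h e f : Cor C X} (t : Sl2 h e f) (hem : e ∈ crg C X 1) (hfm : f ∈ crg C X (-1))
  (hact : ∀ (m : ℤ) (a : H.A X), a ∈ H.gr X m → actH C X H h a = ((m : K) - X.dim) • a)

include t hem hfm hact

/-- the weight idempotents are the projectors on the cohomology -/
lemma wp_act (m : ℤ) (a : H.A X) (ha : a ∈ H.gr X m) :
    actH C X H (wp h (X.dim + 1) (m - X.dim)) a = a := by
  have hE : e ^ (X.dim + 1) = 0 := crg_top (crg_pow hem (X.dim + 1)) (by push_cast; omega)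
  have hF : f ^ (X.dim + 1) = 0 := crg_bot (crg_pow hfm (X.dim + 1)) (by push_cast; omega)
  by_cases ha0 : a = 0
  · rw [ha0, map_zero]
  have hm0 := nonneg_of_mem H ha ha0
  have hm1 : m ≤ 2 * X.dim := by
    by_contra hcon
    rw [gr_top H (by omega)] at ha
    exact ha0 ((Submodule.mem_bot _).1 ha)
  have hne : ∀ j : ℤ, j ≠ m - X.dim → actH C X H (wp h (X.dim + 1) j) a = 0 := by
    intro j hj
    have e1 : h * wp h (X.dim + 1) j = ((j : ℤ) : Cor C X) * wp h (X.dim + 1) j := by
      rw [h_wp t hE hF, Algebra.smul_def, map_intCast]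
    have e2 : wp h (X.dim + 1) j * h = h * wp h (X.dim + 1) j := h_wp_comm _
    have h2 := congrArg (fun y : Cor C X => actH C X H y a) e2
    rw [e1] at h2
    simp only [map_mul, map_intCast, Module.End.mul_apply] at h2
    rw [hact m a ha, map_smul] at h2
    have e3 : ∀ (n : ℤ) (y : H.A X), (n : Module.End K (H.A X)) y = (n : K) • y := by
      intro n y
      rw [Module.End.intCast_apply, Int.cast_smul_eq_zsmul]
    rw [e3, ← sub_eq_zero, ← sub_smul, smul_eq_zero] at h2
    rcases h2 with h2 | h2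
    · exfalso
      have h3 : ((m - X.dim - j : ℤ) : K) = 0 := by
        rw [← h2]
        push_cast
        ring
      obtain ⟨n, hn⟩ := (m - X.dim - j).eq_nat_or_neg
      have hn0 : n ≠ 0 := by
        rintro rfl
        apply hj
        rcases hn with hn | hn <;> omega
      have h4 : ((n : ℕ) : K) = 0 := by
        rcases hn with hn | hn
        · rw [hn, Int.cast_natCast] at h3
          exact h3
        · rw [hn, Int.cast_neg, Int.cast_natCast, neg_eq_zero] at h3
          exact h3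
      exact charZero_coeff H X n hn0 h4
    · exact h2
  have h3 : actH C X H (∑ j ∈ wts (X.dim + 1), wp h (X.dim + 1) j) a = a := by
    rw [wp_sum t hE hF, map_one]; rfl
  rw [map_sum, LinearMap.sum_apply, Finset.sum_eq_single (m - X.dim)] at h3
  · exact h3
  · intro j _ hj
    exact hne j hj
  · intro h4
    exfalso
    apply h4
    unfold wts
    rw [Finset.mem_Ioo]
    push_cast
    constructor <;> omega

/-- hard Lefschetz from an `sl(2)`-triple -/
theorem hardLefschetz_of_sl2 : HardLefschetzCor H X (e : C.A (X.prod X)) := by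
  have hE : e ^ (X.dim + 1) = 0 := crg_top (crg_pow hem (X.dim + 1)) (by push_cast; omega)
  have hF : f ^ (X.dim + 1) = 0 := crg_bot (crg_pow hfm (X.dim + 1)) (by push_cast; omega)
  have hh0 : h ∈ crg C X 0 := by
    rw [← t.ef]
    refine Submodule.sub_mem _ ?_ ?_
    · have := crg_mul hem hfm
      rwa [show (1 : ℤ) + -1 = 0 by norm_num] at this
    · have := crg_mul hfm hem
      rwa [show (-1 : ℤ) + 1 = 0 by norm_num] at this
  have hhc : h ∈ cor0 C X := crg_zero_iff.1 hh0
  have hPm : ∀ j, wp h (X.dim + 1) j ∈ crg C X 0 := by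
    intro j
    rw [crg_zero_iff]
    unfold wp
    split_ifs
    · exact (Algebra.adjoin_le (Set.singleton_subset_iff.2 hhc) :
        Algebra.adjoin ℚ {h} ≤ cor0 C X) (Polynomial.aeval_mem_adjoin_singleton ℚ h)
    · exact (cor0 C X).zero_mem
  intro r hr
  obtain ⟨g, hg1, hg2, hg3⟩ := exists_lefschetz_inverse t hE hF r
  have hLr : e ^ r ∈ crg C X r := by
    have := crg_pow hem r
    rwa [mul_one] at this
  constructor
  · intro a ha h0
    rw [corPow_eq] at h0
    have h1 : actH C X H (e ^ r) a = 0 := h0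
    have h2 := wp_act t hem hfm hact _ a ha
    rw [show (X.dim : ℤ) - r - X.dim = -(r : ℤ) by ring] at h2
    have h3 : actH C X H (g * e ^ r * wp h (X.dim + 1) (-(r : ℤ))) a = a := by
      rw [hg1, h2]
    rw [map_mul, map_mul, Module.End.mul_apply, Module.End.mul_apply, h2, h1, map_zero] at h3
    exact h3.symm
  · intro b hb
    let ψ : Cor C X →ₗ[ℚ] Cor C X := LinearMap.mulLeft ℚ (e ^ r)
    have hψ : ∀ i, ∀ x ∈ crg C X i, ψ x ∈ crg C X (i + r) := by
      intro i x hx
      have := crg_mul hLr hx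
      rwa [add_comm] at this
    have k2 := cmpc_map ψ r hψ (-r) g
    have e2 : ψ g = wp h (X.dim + 1) (r : ℤ) := hg2
    rw [e2, neg_add_cancel, cmpc_of_mem (hPm _)] at k2
    have k3 : wp h (X.dim + 1) (r : ℤ) = e ^ r * cmpc C X (-r) g := k2
    refine ⟨actH C X H (cmpc C X (-r) g) b, ?_, ?_⟩
    · have h3 := actH_crg (H := H) (cmpc_mem (C := C) (-r : ℤ) g) hb
      rwa [show (X.dim : ℤ) + r + 2 * -(r : ℤ) = X.dim - r by ring] at h3
    · rw [corPow_eq]
      have h2 := wp_act t hem hfm hact _ b hb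
      rw [show (X.dim : ℤ) + r - X.dim = (r : ℤ) by ring, k3, map_mul] at h2
      exact h2

end sl2

section triple

include hC hH

/-- The `sl(2)`-triple attached to motivic hard Lefschetz. -/
theorem exists_triple {L : Cor C X} (hL : L ∈ crg C X 1)
    (h : ∃ π, IsCK H X π ∧ MotivicLefschetz C (L : C.A (X.prod X)) π) :
    ∃ h f : Cor C X, Sl2 h L f ∧ f ∈ crg C X (-1) ∧
      ∀ (m : ℤ) (a : H.A X), a ∈ H.gr X m → actH C X H h a = ((m : K) - X.dim) • a := by
  obtain ⟨π, h1, h2⟩ := h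
  have h3 : InSquare C (L : C.A (X.prod X)) :=
    inSquare_of_powersRegular (C := C) (X := X) hL
      (powersRegular_of_motivicLefschetz (C := C) (X := X) (H := H) hL h1 h2)
  have hHL := hardLefschetz_of_motivic h1 h2
  rw [inSquare_iff] at h3
  obtain ⟨z₀, hz₀, hz₀'⟩ := h3
  obtain ⟨z, hz⟩ : ∃ z : Cor C X, z = -(z₀ + z₀) := ⟨_, rfl⟩
  obtain ⟨h, hh⟩ : ∃ h : Cor C X, h = L * z - z * L := ⟨_, rfl⟩
  have hzm : z ∈ crg C X (-1) := by
    rw [hz]; exact Submodule.neg_mem _ (Submodule.add_mem _ hz₀ hz₀)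
  have he : h * L - L * h = 2 * L := by
    calc h * L - L * h
        = (L * (L * z₀ - z₀ * L) - (L * z₀ - z₀ * L) * L) +
          (L * (L * z₀ - z₀ * L) - (L * z₀ - z₀ * L) * L) := by
          rw [hh, hz]; noncomm_ring
      _ = 2 * L := by rw [hz₀', two_mul]
  have hh0 : h ∈ crg C X 0 := by
    rw [hh]
    refine Submodule.sub_mem _ ?_ ?_
    · have := crg_mul hL hzm
      rwa [show (1 : ℤ) + -1 = 0 by norm_num] at this
    · have := crg_mul hzm hL
      rwa [show (-1 : ℤ) + 1 = 0 by norm_num] at this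
  have hE : L ^ (X.dim + 1) = 0 := crg_top (crg_pow hL (X.dim + 1)) (by push_cast; omega)
  obtain ⟨f, hf, t⟩ := morozov hE hh.symm he (crg C X (-1)) hzm (fun x hx => by
    refine Submodule.sub_mem _ ?_ ?_
    · have := crg_mul hh0 hx
      rwa [zero_add] at this
    · have := crg_mul hx hh0
      rwa [add_zero] at this)
  exact ⟨h, f, t, hf, h_act (H := H) t.ef he hL hf hHL⟩

end triple

section prod

include hC

/-- `a ↦ a × 1` -/
noncomputable def i1 (C : TheoryData.{u, v, 0} 𝒱 ℚ) [IsChowProj C] (X Y : 𝒱.Obj) :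
    Cor C X →ₗ[ℚ] Cor C (X.prod Y) where
  toFun a := tens C (X := X) (Y := X) (Z := Y) (W := Y) a (dg C Y)
  map_add' _ _ := LinearMap.map_add₂ (tensL (C := C) (X := X) (Y := X) (Z := Y) (W := Y)) _ _ _
  map_smul' _ _ := LinearMap.map_smul₂ (tensL (C := C) (X := X) (Y := X) (Z := Y) (W := Y)) _ _ _

/-- `b ↦ 1 × b` -/
noncomputable def i2 (C : TheoryData.{u, v, 0} 𝒱 ℚ) [IsChowProj C] (X Y : 𝒱.Obj) :
    Cor C Y →ₗ[ℚ] Cor C (X.prod Y) where
  toFun b := tens C (X := X) (Y := X) (Z := Y) (W := Y) (dg C X) b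
  map_add' _ _ := map_add (tensL (C := C) (X := X) (Y := X) (Z := Y) (W := Y) (dg C X)) _ _
  map_smul' _ _ := map_smul (tensL (C := C) (X := X) (Y := X) (Z := Y) (W := Y) (dg C X)) _ _

lemma i1_mul (a b : Cor C X) : i1 C X Y (a * b) = i1 C X Y a * i1 C X Y b := by
  have h := tens_comp' (C := C) (X := X) (Z := Y) (b : C.A (X.prod X)) (a : C.A (X.prod X))
    (dg C Y) (dg C Y)
  rw [comp_dg] at h
  exact h.symm

lemma i2_mul (a b : Cor C Y) : i2 C X Y (a * b) = i2 C X Y a * i2 C X Y b := by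
  have h := tens_comp' (C := C) (X := X) (Z := Y) (dg C X) (dg C X)
    (b : C.A (Y.prod Y)) (a : C.A (Y.prod Y))
  rw [comp_dg] at h
  exact h.symm

lemma i1_i2 (a : Cor C X) (b : Cor C Y) : i1 C X Y a * i2 C X Y b = i2 C X Y b * i1 C X Y a := by
  have h1 := tens_comp' (C := C) (X := X) (Z := Y) (dg C X) (a : C.A (X.prod X))
    (b : C.A (Y.prod Y)) (dg C Y)
  have h2 := tens_comp' (C := C) (X := X) (Z := Y) (a : C.A (X.prod X)) (dg C X)
    (dg C Y) (b : C.A (Y.prod Y))
  have e1 : C.comp (dg C X) (a : C.A (X.prod X)) = C.comp (a : C.A (X.prod X)) (dg C X) :=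
    (dg_comp C (X := X) (Y := X) a).trans (comp_dg C (X := X) (Y := X) a).symm
  have e2 : C.comp (b : C.A (Y.prod Y)) (dg C Y) = C.comp (dg C Y) (b : C.A (Y.prod Y)) :=
    (comp_dg C (X := Y) (Y := Y) b).trans (dg_comp C (X := Y) (Y := Y) b).symm
  exact h1.trans ((congrArg₂ (tens C (X := X) (Y := X) (Z := Y) (W := Y)) e1 e2).trans h2.symm)

lemma i1_mem {a : Cor C X} {j : ℤ} (ha : a ∈ crg C X j) : i1 C X Y a ∈ crg C (X.prod Y) j := by
  have h := tens_mem C (X := X) (Y := X) (Z := Y) (W := Y) ha (dg_mem C Y)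
  have e : (X.dim : ℤ) + j + Y.dim = ((X.prod Y).dim : ℤ) + j := by
    rw [dim_prod]; push_cast; ring
  rw [e] at h
  exact h

lemma i2_mem {b : Cor C Y} {j : ℤ} (hb : b ∈ crg C Y j) : i2 C X Y b ∈ crg C (X.prod Y) j := by
  have h := tens_mem C (X := X) (Y := X) (Z := Y) (W := Y) (dg_mem C X) hb
  have e : (X.dim : ℤ) + (Y.dim + j) = ((X.prod Y).dim : ℤ) + j := by
    rw [dim_prod]; push_cast; ring
  rw [e] at h
  exact h

/-- the product triple -/
lemma sl2_prod {h e f : Cor C X} {h' e' f' : Cor C Y} (t : Sl2 h e f) (t' : Sl2 h' e' f') :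
    Sl2 (i1 C X Y h + i2 C X Y h') (i1 C X Y e + i2 C X Y e') (i1 C X Y f + i2 C X Y f') := by
  have key : ∀ (a b : Cor C X) (a' b' : Cor C Y),
      (i1 C X Y a + i2 C X Y a') * (i1 C X Y b + i2 C X Y b') -
        (i1 C X Y b + i2 C X Y b') * (i1 C X Y a + i2 C X Y a') =
      i1 C X Y (a * b - b * a) + i2 C X Y (a' * b' - b' * a') := by
    intro a b a' b'
    rw [map_sub, map_sub, i1_mul, i1_mul, i2_mul, i2_mul]
    have c1 := i1_i2 (C := C) (X := X) (Y := Y) a b'
    have c2 := i1_i2 (C := C) (X := X) (Y := Y) b a'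
    rw [mul_add, add_mul, add_mul, mul_add, add_mul, add_mul, c1, c2]
    abel
  have hq : ∀ (a : Cor C X), (2 : Cor C X) * a = (2 : ℚ) • a := by
    intro a; rw [Algebra.smul_def, map_ofNat]
  have hq' : ∀ (a : Cor C Y), (2 : Cor C Y) * a = (2 : ℚ) • a := by
    intro a; rw [Algebra.smul_def, map_ofNat]
  have hq2 : ∀ (a : Cor C (X.prod Y)), (2 : Cor C (X.prod Y)) * a = (2 : ℚ) • a := by
    intro a; rw [Algebra.smul_def, map_ofNat]
  refine ⟨?_, ?_, ?_⟩
  · rw [key, t.ef, t'.ef]
  · rw [key, t.he, t'.he, hq, hq', map_smul, map_smul, hq2, smul_add]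
  · rw [key, t.hf, t'.hf, hq, hq', map_neg, map_neg, map_smul, map_smul, hq2, smul_add]
    abel

end prod

section main

include hC hH

/-- **Motivic hard Lefschetz is stable under products.** -/
theorem lefschetz_prod {L : C.A (X.prod X)} {M : C.A (Y.prod Y)}
    (hL : C.Deg ((X.dim : ℤ) + 1) L) (hM : C.Deg ((Y.dim : ℤ) + 1) M)
    (hLs : tp C L = L) (hMs : tp C M = M)
    (h : ∃ π, IsCK H X π ∧ MotivicLefschetz C L π)
    (h' : ∃ π, IsCK H Y π ∧ MotivicLefschetz C M π) :
    ∃ π, IsCK H (X.prod Y) π ∧ IsSelfDual C π ∧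
      MotivicLefschetz C (tens C L (dg C Y) + tens C (dg C X) M) π := by
  obtain ⟨h1, f1, t1, hf1, ha1⟩ := exists_triple (C := C) (H := H) (X := X) (L := L) hL h
  obtain ⟨h2, f2, t2, hf2, ha2⟩ := exists_triple (C := C) (H := H) (X := Y) (L := M) hM h'
  have t := sl2_prod (C := C) t1 t2
  have hem : i1 C X Y L + i2 C X Y M ∈ crg C (X.prod Y) 1 :=
    Submodule.add_mem _ (i1_mem hL) (i2_mem hM)
  have hfm : i1 C X Y f1 + i2 C X Y f2 ∈ crg C (X.prod Y) (-1) :=
    Submodule.add_mem _ (i1_mem hf1) (i2_mem hf2)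
  have hact : ∀ (m : ℤ) (a : H.A (X.prod Y)), a ∈ H.gr (X.prod Y) m →
      actH C (X.prod Y) H (i1 C X Y h1 + i2 C X Y h2) a = ((m : K) - (X.prod Y).dim) • a := by
    intro m a ha
    have h3 := H.kunneth X Y m ha
    clear ha
    induction h3 using Submodule.span_induction with
    | mem x hx =>
      obtain ⟨l, a, b, hla, hlb, rfl⟩ := hx
      have e1 : actH C (X.prod Y) H (i1 C X Y h1) (H.ext a b) =
          H.ext (actH C X H h1 a) b := by
        have h4 := actH_tens_ext H (X := X) (Y := X) (Z := Y) (W := Y)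
          (h1 : C.A (X.prod X)) (dg C Y) a b
        rw [actH_dg] at h4
        exact h4
      have e2 : actH C (X.prod Y) H (i2 C X Y h2) (H.ext a b) =
          H.ext a (actH C Y H h2 b) := by
        have h4 := actH_tens_ext H (X := X) (Y := X) (Z := Y) (W := Y)
          (dg C X) (h2 : C.A (Y.prod Y)) a b
        rw [actH_dg] at h4
        exact h4
      change actH C (X.prod Y) H (i1 C X Y h1 + i2 C X Y h2) (H.ext a b) = _ • H.ext a b
      rw [map_add, LinearMap.add_apply, e1, e2, ha1 l a hla, ha2 (m - l) b hlb]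
      have e3 : ∀ c : K, H.ext (c • a) b = c • H.ext a b := by
        intro c; rw [TheoryData.ext, TheoryData.ext, map_smul, smul_mul_assoc]
      have e4 : ∀ c : K, H.ext a (c • b) = c • H.ext a b := by
        intro c; rw [TheoryData.ext, TheoryData.ext, map_smul, mul_smul_comm]
      rw [e3, e4, ← add_smul]
      congr 1
      rw [dim_prod]
      push_cast
      ring
    | zero => simp
    | add x y _ _ hx hy => rw [map_add, hx, hy, smul_add]
    | smul c x _ hx => rw [map_smul, hx, smul_comm]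
  have hHL := hardLefschetz_of_sl2 (H := H) t hem hfm hact
  have hsym : tpR C (X.prod Y) (i1 C X Y L + i2 C X Y M) = i1 C X Y L + i2 C X Y M := by
    rw [map_add]
    have e1 : tpR C (X.prod Y) (i1 C X Y L) = i1 C X Y L := by
      have h4 := tp_tens (C := C) (X := X) (Y := X) (Z := Y) (W := Y) L (dg C Y)
      rw [hLs, tp_dg] at h4
      exact h4
    have e2 : tpR C (X.prod Y) (i2 C X Y M) = i2 C X Y M := by
      have h4 := tp_tens (C := C) (X := X) (Y := X) (Z := Y) (W := Y) (dg C X) M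
      rw [hMs, tp_dg] at h4
      exact h4
    rw [e1, e2]
  have hS : InSquare C (X := X.prod Y) (i1 C X Y L + i2 C X Y M) := by
    rw [inSquare_iff]
    refine ⟨(-(2 : ℚ)⁻¹) • (i1 C X Y f1 + i2 C X Y f2), Submodule.smul_mem _ _ hfm, ?_⟩
    have e1 := t.ef
    have e2 := t.he
    have e3 : ∀ a : Cor C (X.prod Y), (2 : Cor C (X.prod Y)) * a = (2 : ℚ) • a := by
      intro a; rw [Algebra.smul_def, map_ofNat]
    rw [e3] at e2
    set e := i1 C X Y L + i2 C X Y M with he
    set f := i1 C X Y f1 + i2 C X Y f2 with hf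
    set hh := i1 C X Y h1 + i2 C X Y h2 with hhh
    have e4 : e * ((-(2 : ℚ)⁻¹) • f) - ((-(2 : ℚ)⁻¹) • f) * e = (-(2 : ℚ)⁻¹) • hh := by
      rw [mul_smul_comm, smul_mul_assoc, ← smul_sub, e1]
    rw [e4, mul_smul_comm, smul_mul_assoc, ← smul_sub, ← neg_sub, e2, smul_neg, neg_smul, neg_neg,
      smul_smul]
    norm_num
  exact exists_selfDual_of_inSquare (C := C) (X := X.prod Y) (H := H) hem hsym hHL hS

end main

end Pool.Agent.T2H38.MD
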