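import Pool.Agent.T2H38.MD.Defs

/-!
# The decomposition of a product attached to decompositions of the factors
-/

set_option autoImplicit false

universe u v

namespace Pool.Agent.T2H38.MD

open Pool.Agent.H914 Pool.Agent.H914.VarClass Pool.Agent.H914.VarClass.Obj Pool.Agent.W492.BB
  Pool.Agent.W550.Corr Pool.Agent.TH133

/-- The product of the dual `q ↦ tp (π (2 dim X - q))` of the family `π` of self-correspondences of
`X` with the family `ρ` of self-correspondences of `Z`: a Chow-Kunneth decomposition of `X × Z` if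
`π` and `ρ` are Chow-Kunneth decompositions. -/
noncomputable def dualProd {k : Type u} [Field k] {𝒱 : VarClass k} (C : TheoryData.{u, v, 0} 𝒱 ℚ)
    {X Z : 𝒱.Obj} (π : ℕ → C.A (X.prod X)) (ρ : ℕ → C.A (Z.prod Z)) :
    ℕ → C.A ((X.prod Z).prod (X.prod Z)) :=
  fun n => ∑ q ∈ Finset.range (n + 1),
    C.pull (prodMap (fst X Z) (fst X Z)) (if q ≤ 2 * X.dim then tp C (π (2 * X.dim - q)) else 0) *
      C.pull (prodMap (snd X Z) (snd X Z)) (ρ (n - q))

end Pool.Agent.T2H38.MD
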