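import Pool.Agent.T2H38.MD.Basic
import Pool.Agent.T2H38.MD.SqDefs

/-!
# Murre's conjecture (D) and squares

(D) in the middle codimension for `X × X` and a product decomposition means that the homologically
trivial correspondences of degree zero of `X` strictly lower the weights, and it implies (D) for `X`
in all codimensions.
-/

set_option autoImplicit false

open CategoryTheory AlgebraicGeometry

universe u v w

namespace Pool.Agent.T2H38.MD

open Pool.Agent.H914 Pool.Agent.H914.VarClass Pool.Agent.H914.VarClass.Obj Pool.Agent.W492.BB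
  Pool.Agent.W550.Corr Pool.Agent.TH133 Pool.Agent.Y107 Pool.Agent.Q73.LS

set_option linter.unusedSectionVars false

variable {k : Type u} [Field k] {𝒱 : VarClass k}

section weil

variable {C : TheoryData.{u, v, 0} 𝒱 ℚ} [hC : IsChowProj C] {K : Type w} [Field K]
  {H : WeilTheoryData.{u, v, w} C K} [hH : IsWeilProj H] {X Y Z : 𝒱.Obj}

include hC hH

lemma dualProd_eq (π : ℕ → C.A (X.prod X)) (ρ : ℕ → C.A (Z.prod Z)) :
    dualProd C π ρ = prodCK C (dualCK C π) ρ := rfl

/-- `dualProd` is a Chow-Kunneth decomposition. -/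
lemma isCK_dualProd {π : ℕ → C.A (X.prod X)} {ρ : ℕ → C.A (Z.prod Z)} (h : IsCK H X π)
    (h' : IsCK H Z ρ) : IsCK H (X.prod Z) (dualProd C π ρ) := h.dual.prod h'

/-- (D) in codimension `n` for `X × Z` kills the components of homologically trivial cycles. -/
lemma comp_zero_of_dAt {π : ℕ → C.A (X.prod X)} {ρ : ℕ → C.A (Z.prod Z)} (h : IsCK H X π)
    (h' : IsCK H Z ρ) {n : ℕ} (hD : DAt H (prodCK C (dualCK C π) ρ) n) {γ : C.A (X.prod Z)}
    (hγ : C.Deg n γ) (h0 : H.cl γ = 0) {a b : ℕ} (ha : a ≤ 2 * X.dim)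
    (hab : 2 * n ≤ 2 * X.dim - a + b) : C.comp (C.comp (π a) γ) (ρ b) = 0 :=
  comp_zero_of_prod (H := H) h h' ha ((dAt_iff (h.dual.prod h') n).1 hD γ hγ h0 _ hab)

/-- Homologically trivial cycles of codimension `l` are killed by `ρ b` if the components in
`Hom(h^(2m)(X), h^b(Z))` of the homologically trivial correspondences of the right degree are zero,
for one variety `X` of dimension at least `m`. -/
lemma act_zero_of_comp_zero {π : ℕ → C.A (X.prod X)} {ρ : ℕ → C.A (Z.prod Z)} (h : IsCK H X π)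
    (h' : IsCK H Z ρ) {l m b : ℕ} (hmX : m ≤ X.dim) {x : C.A Z} (hx : C.Deg l x)
    (h0 : H.cl x = 0) (hD : ∀ γ : C.A (X.prod Z), C.Deg ((X.dim : ℤ) - m + l) γ → H.cl γ = 0 →
      C.comp (C.comp (π (2 * m)) γ) (ρ b) = 0) : C.act (ρ b) x = 0 := by
  obtain ⟨u0, hu0, v0, hv0, huv⟩ := exists_dual_pair (C := C) (H := H) X (l := m) hmX
  set α := C.act (ρ b) x with hα
  have hαm : α ∈ C.gr Z l := act_mem0 C (h'.deg b) hx
  have hα0 : H.cl α = 0 := by rw [hα, cl_act H, h0]; exact H.act_map_zero _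
  have hαj : C.act (ρ b) α = α := by rw [hα, ← C.act_comp, h'.idem]
  have hE : C.Deg ((X.dim : ℤ) - m + l) (C.ext v0 α) := ext_mem (C := C) (H := H) hv0 hαm
  have hE0 : H.cl (C.ext v0 α) = 0 := by
    rw [TheoryData.ext, map_mul, H.cl_pull, H.cl_pull, hα0, map_zero, mul_zero]
  have hz := hD (C.ext v0 α) hE hE0
  have h1 : C.act (C.comp (C.comp (π (2 * m)) (C.ext v0 α)) (ρ b)) u0 = 0 := by
    rw [hz]; exact C.act_zero _
  rw [C.act_comp, C.act_comp] at h1
  set w := C.act (π (2 * m)) u0 with hw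
  have hwm : w ∈ C.gr X m := act_mem0 C (h.deg _) hu0
  have h2 : C.act (C.ext v0 α) w = α := by
    rw [act_ext (H := H)]
    have h2 : C.push (snd X Z) (C.pull (fst X Z) (v0 * w)) = 1 := by
      have h4 : C.push (snd X X) (C.pull (fst X X) (v0 * u0)) = 1 := huv
      have h5 : v0 * u0 ∈ C.gr X X.dim := by
        have h6 := C.mul_mem hv0 hu0
        rwa [sub_add_cancel] at h6
      have h7 : C.push (snd X Z) (C.pull (fst X Z) (v0 * u0)) = 1 := by
        obtain ⟨q, hq⟩ := hC.degree X _ h5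
        have h8 := (hq X).1
        have h9 := (hq Z).1
        change C.push (snd X X) (C.pull (fst X X) (v0 * u0)) = q • (1 : C.A X) at h8
        change C.push (snd X Z) (C.pull (fst X Z) (v0 * u0)) = q • (1 : C.A Z) at h9
        have hq1 : q = 1 := by
          rw [h4] at h8
          by_contra hne
          have h10 : (1 : C.A X) = 0 := by
            have h11 : (1 - q) • (1 : C.A X) = 0 := by rw [sub_smul, one_smul, ← h8, sub_self]
            have h12 : (1 - q) ≠ 0 := sub_ne_zero.2 (Ne.symm hne)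
            have h13 := congrArg (fun z => (1 - q)⁻¹ • z) h11
            simp only [smul_smul, inv_mul_cancel₀ h12, one_smul, smul_zero] at h13
            exact h13
          have h14 : (1 : H.A X) = 0 := by rw [← map_one H.cl, h10, map_zero]
          exact hH.one_ne_zero X h14
        rw [h9, hq1, one_smul]
      rw [← h7]
      apply deg_eq_of_cl (H := H)
      · have h6 := C.mul_mem hv0 hwm
        rwa [sub_add_cancel] at h6
      · exact h5
      · rw [map_mul, map_mul, hw, cl_act H]
        congr 1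
        have h3 := H.cl_mem hu0
        exact h.act_self (2 * m) _ (by exact_mod_cast h3)
    rw [h2, one_mul]
  rw [h2, hαj] at h1
  exact h1

/-- **(D) in codimension `n` for `X × Z` implies (D) in codimension `l` for `Z`**, for
`l ≤ n ≤ dim X + l`. More precisely it suffices that the components of the homologically trivial
cycles vanish. -/
theorem dAt_of_comp_zero {π : ℕ → C.A (X.prod X)} {ρ : ℕ → C.A (Z.prod Z)} (h : IsCK H X π)
    (h' : IsCK H Z ρ) {n l : ℕ} (hl : l ≤ n) (hn : n ≤ X.dim + l)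
    (hD : ∀ γ : C.A (X.prod Z), C.Deg n γ → H.cl γ = 0 → ∀ a b : ℕ, a ≤ 2 * X.dim →
      2 * n ≤ 2 * X.dim - a + b → C.comp (C.comp (π a) γ) (ρ b) = 0) : DAt H ρ l := by
  rw [dAt_iff h']
  intro x hx h0 b hb
  obtain ⟨m, hm⟩ : ∃ m, m = X.dim + l - n := ⟨_, rfl⟩
  refine act_zero_of_comp_zero h h' (m := m) (by omega) hx h0 fun γ hγ hγ0 => ?_
  have e : (X.dim : ℤ) - m + l = n := by omega
  rw [e] at hγ
  exact hD γ hγ hγ0 (2 * m) b (by omega) (by omega)

theorem dAt_of_prod {π : ℕ → C.A (X.prod X)} {ρ : ℕ → C.A (Z.prod Z)} (h : IsCK H X π)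
    (h' : IsCK H Z ρ) {n l : ℕ} (hl : l ≤ n) (hn : n ≤ X.dim + l)
    (hD : DAt H (prodCK C (dualCK C π) ρ) n) : DAt H ρ l :=
  dAt_of_comp_zero h h' hl hn fun _ hγ h0 _ _ ha hab => comp_zero_of_dAt h h' hD hγ h0 ha hab

/-- (D) in codimension `n` for a product decomposition of `X × Z` in terms of correspondences -/
theorem dAt_prod_iff {π : ℕ → C.A (X.prod X)} {ρ : ℕ → C.A (Z.prod Z)} (h : IsCK H X π)
    (h' : IsCK H Z ρ) (n : ℕ) :
    DAt H (prodCK C (dualCK C π) ρ) n ↔ ∀ γ : C.A (X.prod Z), C.Deg n γ → H.cl γ = 0 →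
      ∀ a b : ℕ, a ≤ 2 * X.dim → 2 * n ≤ 2 * X.dim - a + b →
        C.comp (C.comp (π a) γ) (ρ b) = 0 := by
  constructor
  · intro hD γ hγ h0 a b ha hab
    exact comp_zero_of_dAt h h' hD hγ h0 ha hab
  · intro hD
    rw [dAt_iff (h.dual.prod h')]
    intro γ hγ h0 i hi
    unfold prodCK
    rw [act_sum]
    refine Finset.sum_eq_zero fun q hq => ?_
    rw [Finset.mem_range] at hq
    rw [act_tens C (ch_comm C)]
    by_cases hq2 : q ≤ 2 * X.dim
    · have h3 : tp C (dualCK C π q) = π (2 * X.dim - q) := by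
        unfold dualCK
        rw [if_pos hq2, tp_tp]
      rw [h3]
      exact hD γ hγ h0 _ _ (by omega) (by omega)
    · have h3 : tp C (dualCK C π q) = 0 := by
        unfold dualCK
        rw [if_neg hq2, tp_zero]
      rw [h3, zero_comp, zero_comp]

/-- The case of a square, in the middle codimension -/
theorem dAt_square_iff {π : ℕ → C.A (X.prod X)} (h : IsCK H X π) :
    DAt H (prodCK C (dualCK C π) π) X.dim ↔ ∀ γ : C.A (X.prod X), C.Deg X.dim γ →
      H.cl γ = 0 → ∀ a b : ℕ, a ≤ b → C.comp (C.comp (π a) γ) (π b) = 0 := by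
  rw [dAt_prod_iff h h]
  constructor
  · intro hD γ hγ h0 a b hab
    by_cases ha : a ≤ 2 * X.dim
    · exact hD γ hγ h0 a b ha (by omega)
    · rw [h.out a (by omega), zero_comp, zero_comp]
  · intro hD γ hγ h0 a b ha hab
    exact hD γ hγ h0 a b (by omega)

/-- (D) in the middle codimension for the square implies (D) in all codimensions. -/
theorem dAt_of_square {π : ℕ → C.A (X.prod X)} (h : IsCK H X π)
    (hD : DAt H (prodCK C (dualCK C π) π) X.dim) (l : ℕ) : DAt H π l := by
  by_cases hl : l ≤ X.dim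
  · exact dAt_of_prod h h hl (by omega) hD
  · rw [dAt_iff h]
    intro x hx _ i _
    rw [hC.gr_top X l x hx (by exact_mod_cast not_le.1 hl)]
    exact C.act_map_zero _

/-- **(D) for all varieties of the class is the statement that homologically trivial
correspondences of degree zero strictly lower the weights.** -/
theorem murreD_iff : (∀ X : 𝒱.Obj, MurreD H X) ↔ ∀ X : 𝒱.Obj, StrictlyLowers H X := by
  constructor
  · intro hD X π h γ hγ h0 a b hab
    exact (dAt_square_iff h).1 (fun x => hD (X.prod X) _ (h.dual.prod h) X.dim x) γ hγ h0 a b hab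
  · intro hS X π h i x
    exact dAt_of_square h ((dAt_square_iff h).2 (hS X π h)) i x

/-- (D) implies the first half of (B). -/
theorem murreB0_of_D (X : 𝒱.Obj) (hX : MurreD H X) : MurreB0 H X := by
  rw [murreB0_iff]
  intro π hπ i j x hx hj
  have h1 : H.cl (C.act (π j) x) = 0 := by
    rw [cl_act H]
    exact hπ.act_ne j (2 * (i : ℤ)) _ (by omega) (H.cl_mem hx)
  have h2 := (dAt_iff hπ i).1 (fun y => hX π hπ i y) (C.act (π j) x)
    (act_mem0 C (hπ.deg j) hx) h1 j (by omega)
  rwa [← C.act_comp, hπ.idem] at h2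

/-- **(D) for `X × X` implies (D) and (C) for `X`.** -/
theorem murreD_murreC_of_square (X : 𝒱.Obj) (hX : MurreD H (X.prod X)) :
    MurreD H X ∧ MurreC H X :=
  ⟨fun _ h i x => dAt_of_square h (fun y => hX _ (h.dual.prod h) X.dim y) i x,
    murreC_of_B0 X (murreB0_of_D _ hX)⟩

/-- **(D) in terms of the middle motives.** Homologically trivial correspondences have component
zero in the endomorphism ring of the middle motive `h^d(X)`, `d = dim X`. -/
theorem murreD_iff_middle : (∀ X : 𝒱.Obj, MurreD H X) ↔ (∀ X : 𝒱.Obj, MurreB0 H X) ∧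
    ∀ (X : 𝒱.Obj) (π : ℕ → C.A (X.prod X)), IsCK H X π → ∀ γ : C.A (X.prod X),
      C.Deg X.dim γ → H.cl γ = 0 → C.comp (C.comp (π X.dim) γ) (π X.dim) = 0 := by
  constructor
  · intro hD
    exact ⟨fun X => murreB0_of_D X (hD X), fun X π h γ hγ h0 =>
      (murreD_iff.1 hD) X π h γ hγ h0 _ _ le_rfl⟩
  · rintro ⟨hB, hM⟩ X π h i x
    refine dAt_of_square h ?_ i x
    have hP : IsCK H (X.prod X) (prodCK C (dualCK C π) π) := h.dual.prod h
    have hB' := (murreB0_iff (C := C) (H := H) (X.prod X)).1 (hB (X.prod X)) _ hP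
    have hd : (X.prod X).dim = X.dim + X.dim := rfl
    rw [dAt_iff hP]
    intro y hy hy0 j hj
    rcases Nat.lt_or_ge (2 * X.dim) j with hj' | hj'
    · exact hB' X.dim j y hy hj'
    · have ej : j = 2 * X.dim := le_antisymm hj' hj
      subst ej
      refine act_zero_of_comp_zero hP hP (m := X.dim) (by omega) hy hy0 fun γ hγ hγ0 => ?_
      have e : (((X.prod X).dim : ℕ) : ℤ) - X.dim + X.dim = ((X.prod X).dim : ℕ) := by ring
      rw [e] at hγ
      have h1 := hM (X.prod X) _ hP γ hγ hγ0
      have e2 : (X.prod X).dim = 2 * X.dim := by omega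
      rwa [e2] at h1

/-- (D) in codimension zero -/
lemma dAt_zero {π : ℕ → C.A (X.prod X)} (h : IsCK H X π) : DAt H π 0 := by
  rw [dAt_iff h]
  intro x hx h0 i _
  obtain ⟨q, hq⟩ := hC.gr_zero X x hx
  by_cases hq0 : q = 0
  · rw [hq, hq0, zero_smul]; exact C.act_map_zero _
  · exfalso
    apply hH.one_ne_zero X
    have h1 : (1 : C.A X) = (q⁻¹ • (1 : C.A X)) * x := by
      rw [hq, smul_mul_smul_comm, inv_mul_cancel₀ hq0, one_smul, one_mul]
    rw [← map_one H.cl, h1, map_mul, h0, mul_zero]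

/-- **(D) in codimension `n` for all varieties implies (D) in all codimensions `l ≤ n`.** -/
theorem dAt_mono {n : ℕ} (hD : ∀ (X : 𝒱.Obj) (π : ℕ → C.A (X.prod X)), IsCK H X π → DAt H π n)
    {l : ℕ} (hl : l ≤ n) : ∀ (X : 𝒱.Obj) (π : ℕ → C.A (X.prod X)), IsCK H X π → DAt H π l := by
  induction hl using Nat.decreasingInduction with
  | self => exact hD
  | of_succ l hl ih =>
    intro X π h
    rcases Nat.eq_zero_or_pos X.dim with hd | hd
    · rcases Nat.eq_zero_or_pos l with hl0 | hl0
      · subst hl0; exact dAt_zero h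
      · rw [dAt_iff h]
        intro x hx _ i _
        rw [hC.gr_top X l x hx (by rw [hd]; exact_mod_cast hl0)]
        exact C.act_map_zero _
    · exact dAt_of_prod h h (Nat.le_succ l) (by omega) (ih (X.prod X) _ (h.dual.prod h))

end weil

end Pool.Agent.T2H38.MD
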