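import Pool.Agent.T2H38.MD.Squares

/-!
# The first half of Murre's conjecture (B) and squares
-/

set_option autoImplicit false

open CategoryTheory AlgebraicGeometry

universe u v w

namespace Pool.Agent.T2H38.MD

open Pool.Agent.H914 Pool.Agent.H914.VarClass Pool.Agent.H914.VarClass.Obj Pool.Agent.W492.BB
  Pool.Agent.W550.Corr Pool.Agent.TH133 Pool.Agent.Y107 Pool.Agent.Q73.LS

set_option linter.unusedSectionVars false

variable {k : Type u} [Field k] {𝒱 : VarClass k}

section weil

variable {C : TheoryData.{u, v, 0} 𝒱 ℚ} [hC : IsChowProj C] {K : Type w} [Field K]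
  {H : WeilTheoryData.{u, v, w} C K} [hH : IsWeilProj H] {X Y Z : 𝒱.Obj}

include hC hH

/-- The first half of (B) in terms of the projectors -/
lemma b0_iff {π : ℕ → C.A (X.prod X)} (hπ : IsCK H X π) (j : ℕ) :
    ckFil C π j 0 = C.gr X j ↔ ∀ x : C.A X, C.Deg j x → ∀ i, 2 * j < i → C.act (π i) x = 0 := by
  constructor
  · intro h x hx i hi
    have h1 : x ∈ ckFil C π j 0 := by rw [h]; exact hx
    rw [hπ.mem_ckFil] at h1
    exact h1.2 i (by omega)
  · intro h
    ext x
    rw [hπ.mem_ckFil]
    exact ⟨fun h' => h'.1, fun hx => ⟨hx, fun i hi => h x hx i (by omega)⟩⟩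

/-- The components of correspondences under the first half of (B) for the product. -/
lemma comp_zero_of_b0 {π : ℕ → C.A (X.prod X)} {ρ : ℕ → C.A (Z.prod Z)} (h : IsCK H X π)
    (h' : IsCK H Z ρ) {n : ℕ} (hB : ckFil C (dualProd C π ρ) n 0 = C.gr (X.prod Z) n)
    {γ : C.A (X.prod Z)} (hγ : C.Deg n γ) {a b : ℕ} (ha : a ≤ 2 * X.dim)
    (hab : 2 * n < 2 * X.dim - a + b) : C.comp (C.comp (π a) γ) (ρ b) = 0 :=
  comp_zero_of_prod (H := H) h h' ha ((b0_iff (isCK_dualProd h h') n).1 hB γ hγ _ hab)

/-- The first half of (B) for `X × Z` and a product decomposition in terms of correspondences -/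
theorem b0_prod_iff {π : ℕ → C.A (X.prod X)} {ρ : ℕ → C.A (Z.prod Z)} (h : IsCK H X π)
    (h' : IsCK H Z ρ) (n : ℕ) :
    ckFil C (dualProd C π ρ) n 0 = C.gr (X.prod Z) n ↔ ∀ γ : C.A (X.prod Z), C.Deg n γ →
      ∀ a b : ℕ, a ≤ 2 * X.dim → 2 * n < 2 * X.dim - a + b →
        C.comp (C.comp (π a) γ) (ρ b) = 0 := by
  constructor
  · intro hB γ hγ a b ha hab
    exact comp_zero_of_b0 h h' hB hγ ha hab
  · intro hD
    rw [b0_iff (isCK_dualProd h h')]
    intro γ hγ i hi
    rw [dualProd_eq (H := H)]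
    unfold prodCK
    rw [act_sum]
    refine Finset.sum_eq_zero fun q hq => ?_
    rw [Finset.mem_range] at hq
    rw [act_tens C (ch_comm C)]
    by_cases hq2 : q ≤ 2 * X.dim
    · have h3 : tp C (dualCK C π q) = π (2 * X.dim - q) := by
        unfold dualCK
        rw [if_pos hq2, tp_tp]
      rw [h3]
      exact hD γ hγ _ _ (by omega) (by omega)
    · have h3 : tp C (dualCK C π q) = 0 := by
        unfold dualCK
        rw [if_neg hq2, tp_zero]
      rw [h3, zero_comp, zero_comp]

/-- **The first half of (B) in codimension `n` for `X × Z` implies it in codimension `l` for `Z`**,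
for `l ≤ n ≤ dim X + l`. It suffices that the homologically trivial correspondences have no
components which raise the weight. -/
theorem b0_of_comp_zero {π : ℕ → C.A (X.prod X)} {ρ : ℕ → C.A (Z.prod Z)} (h : IsCK H X π)
    (h' : IsCK H Z ρ) {n l : ℕ} (hl : l ≤ n) (hn : n ≤ X.dim + l)
    (hD : ∀ γ : C.A (X.prod Z), C.Deg n γ → H.cl γ = 0 → ∀ a b : ℕ, a ≤ 2 * X.dim →
      2 * n < 2 * X.dim - a + b → C.comp (C.comp (π a) γ) (ρ b) = 0) :
    ckFil C ρ l 0 = C.gr Z l := by
  rw [b0_iff h']
  intro x hx b hb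
  have h0 : H.cl (C.act (ρ b) x) = 0 := by
    rw [cl_act H]
    exact h'.act_ne b (2 * (l : ℤ)) _ (by omega) (H.cl_mem hx)
  obtain ⟨m, hm⟩ : ∃ m, m = X.dim + l - n := ⟨_, rfl⟩
  have h1 := act_zero_of_comp_zero h h' (m := m) (by omega) (act_mem0 C (h'.deg b) hx) h0
    (b := b) fun γ hγ hγ0 => by
      have e : (X.dim : ℤ) - m + l = n := by omega
      rw [e] at hγ
      exact hD γ hγ hγ0 (2 * m) b (by omega) (by omega)
  rwa [← C.act_comp, h'.idem] at h1

theorem b0_of_prod {π : ℕ → C.A (X.prod X)} {ρ : ℕ → C.A (Z.prod Z)} (h : IsCK H X π)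
    (h' : IsCK H Z ρ) {n l : ℕ} (hl : l ≤ n) (hn : n ≤ X.dim + l)
    (hB : ckFil C (dualProd C π ρ) n 0 = C.gr (X.prod Z) n) : ckFil C ρ l 0 = C.gr Z l :=
  b0_of_comp_zero h h' hl hn fun _ hγ _ _ _ ha hab => comp_zero_of_b0 h h' hB hγ ha hab

/-- The case of a square, in the middle codimension -/
theorem b0_square_iff {π : ℕ → C.A (X.prod X)} (h : IsCK H X π) :
    ckFil C (dualProd C π π) X.dim 0 = C.gr (X.prod X) X.dim ↔ ∀ γ : C.A (X.prod X),
      C.Deg X.dim γ → ∀ a b : ℕ, a < b → C.comp (C.comp (π a) γ) (π b) = 0 := by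
  rw [b0_prod_iff h h]
  constructor
  · intro hD γ hγ a b hab
    by_cases ha : a ≤ 2 * X.dim
    · exact hD γ hγ a b ha (by omega)
    · rw [h.out a (by omega), zero_comp, zero_comp]
  · intro hD γ hγ a b ha hab
    exact hD γ hγ a b (by omega)

/-- It is enough that homologically trivial correspondences do not raise the weights. -/
theorem b0_of_square {π : ℕ → C.A (X.prod X)} (h : IsCK H X π)
    (hD : ∀ γ : C.A (X.prod X), C.Deg X.dim γ → H.cl γ = 0 → ∀ a b : ℕ, a < b →
      C.comp (C.comp (π a) γ) (π b) = 0) (l : ℕ) : ckFil C π l 0 = C.gr X l := by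
  by_cases hl : l ≤ X.dim
  · exact b0_of_comp_zero h h hl (by omega) fun γ hγ h0 a b ha hab => hD γ hγ h0 a b (by omega)
  · rw [b0_iff h]
    intro x hx i _
    rw [hC.gr_top X l x hx (by exact_mod_cast not_le.1 hl)]
    exact C.act_map_zero _

/-- A correspondence which does not preserve the weights is homologically trivial: so it is enough
to consider homologically trivial ones. -/
theorem raise_iff {π : ℕ → C.A (X.prod X)} (h : IsCK H X π) :
    (∀ γ : C.A (X.prod X), C.Deg X.dim γ → ∀ a b : ℕ, a < b →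
      C.comp (C.comp (π a) γ) (π b) = 0) ↔
    ∀ γ : C.A (X.prod X), C.Deg X.dim γ → H.cl γ = 0 → ∀ a b : ℕ, a < b →
      C.comp (C.comp (π a) γ) (π b) = 0 := by
  constructor
  · exact fun hD γ hγ _ => hD γ hγ
  · intro hD γ hγ a b hab
    have hm : C.Deg X.dim (C.comp (C.comp (π a) γ) (π b)) :=
      comp_mem0 C (comp_mem0 C (h.deg a) hγ) (h.deg b)
    have h0 : H.cl (C.comp (C.comp (π a) γ) (π b)) = 0 := by
      apply hom_zero_of_act (H := H)
      intro x
      let P : ℕ → Cor C X := π
      have hP : IsCK H X P := h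
      let G : Cor C X := γ
      have hG : G ∈ cor0 C X := hγ
      have h1 : actH C X H (P b * (G * P a)) = 0 := by
        apply ext_gr H
        intro m y hy
        rw [LinearMap.zero_apply, map_mul, map_mul, Module.End.mul_apply, Module.End.mul_apply,
          hP.actH_eq' _ _ hy]
        split_ifs with hm'
        · rw [hP.actH_eq' _ _ (actH_mem0 hG hy), if_neg (by omega)]
        · rw [map_zero, map_zero]
      have h2 := LinearMap.congr_fun h1 x
      rw [LinearMap.zero_apply] at h2
      exact h2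
    have h1 := hD _ hm h0 a b hab
    rw [← h1, ← comp_assoc C, ← comp_assoc C, h.idem, comp_assoc C (C.comp (π a) γ), h.idem]

/-- **The first half of (B) for all varieties of the class is the statement that correspondences of
degree zero do not raise the weights.** -/
theorem murreB0_class_iff : (∀ X : 𝒱.Obj, MurreB0 H X) ↔
    ∀ (X : 𝒱.Obj) (π : ℕ → C.A (X.prod X)), IsCK H X π → ∀ γ : C.A (X.prod X),
      C.Deg X.dim γ → H.cl γ = 0 → ∀ a b : ℕ, a < b → C.comp (C.comp (π a) γ) (π b) = 0 := by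
  constructor
  · intro hB X π h
    exact (raise_iff h).1 ((b0_square_iff h).1 (hB (X.prod X) _ (isCK_dualProd h h) X.dim))
  · intro hS X π h i
    exact b0_of_square h (hS X π h) i

theorem murreB0_squares_iff : (∀ X : 𝒱.Obj, MurreB0 H X) ↔
    ∀ (X : 𝒱.Obj) (π : ℕ → C.A (X.prod X)), IsCK H X π →
      ckFil C (dualProd C π π) X.dim 0 = C.gr (X.prod X) X.dim := by
  constructor
  · intro hB X π h
    exact hB (X.prod X) _ (isCK_dualProd h h) X.dim
  · intro hS X π h i
    exact b0_of_square h ((raise_iff h).1 ((b0_square_iff h).1 (hS X π h))) i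

/-- The first half of (B) in codimension zero for varieties of dimension zero, and in codimension
above the dimension -/
lemma b0_point {π : ℕ → C.A (X.prod X)} (h : IsCK H X π) (hX : X.dim = 0) (l : ℕ) :
    ckFil C π l 0 = C.gr X l := by
  rw [b0_iff h]
  intro x _ i hi
  rw [h.out i (by omega)]
  exact C.act_zero x

/-- **Monotonicity in the codimension.** -/
theorem b0_mono {n : ℕ} (hB : ∀ (X : 𝒱.Obj) (π : ℕ → C.A (X.prod X)), IsCK H X π →
      ckFil C π n 0 = C.gr X n) {l : ℕ} (hl : l ≤ n) :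
    ∀ (X : 𝒱.Obj) (π : ℕ → C.A (X.prod X)), IsCK H X π → ckFil C π l 0 = C.gr X l := by
  induction hl using Nat.decreasingInduction with
  | self => exact hB
  | of_succ l hl ih =>
    intro X π h
    rcases Nat.eq_zero_or_pos X.dim with hd | hd
    · exact b0_point h hd l
    · exact b0_of_prod h h (Nat.le_succ l) (by omega) (ih (X.prod X) _ (isCK_dualProd h h))

/-- With motivic hard Lefschetz the square gives all of (B). -/
theorem bAt_of_square {π : ℕ → C.A (X.prod X)} (h : IsCK H X π) (hM : HasLefschetz C π)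
    (hB : ckFil C (dualProd C π π) X.dim 0 = C.gr (X.prod X) X.dim) (l : ℕ) : BAt C π l := by
  obtain ⟨L, hL, hM⟩ := hM
  have h0 := b0_of_square h ((raise_iff h).1 ((b0_square_iff h).1 hB)) l
  rw [bAt_iff h]
  intro x hx i hi
  rcases hi with hi | hi
  · exact (b0_iff h l).1 h0 x hx i hi
  · exact act_low' hL h hM hi hx

end weil

end Pool.Agent.T2H38.MD
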